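import Pool.Agent.H801.Em2.Graph

set_option autoImplicit false

/-!
# The instance made from the labelled graph
-/

namespace Pool.Agent.H801.Em2

open Pool.Agent.NPC
open Pool.Agent.H801.Fvs (ent)
open Pool.Agent.H801.Em
open Pool.Agent.H801.Tri (E cube mem_cube cube_nodup)

/-- The graph has a proper 3-edge-colouring. -/
def Coloured3 (J : Inst) : Prop :=
  ∃ col : ℕ → ℕ → Fin 3, (∀ a b, col a b = col b a) ∧
    ∀ v a b, ent J.1 v a = true → ent J.1 v b = true → a ≠ b → col v a ≠ col v b

/-- The graph is bipartite. -/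
def Bip (J : Inst) : Prop :=
  ∃ s : ℕ → Bool, ∀ a b, ent J.1 a b = true → s a ≠ s b

/-- The new target. -/
def kt (I : Inst) : ℕ := if I.2.2 < I.1.length + 1 then I.2.2 else I.1.length + 1

/-- The constructed instance. -/
def instk (I : Inst) : Inst :=
  ((lak I.1.length).map (fun x => (lak I.1.length).map
      (fun y => decide (adk I.1.length I.1 x y))),
    (lak I.1.length).map (fun x => (lak I.1.length).map
      (fun y => decide (rek I.1.length I.2.1 x y))), kt I)

section

variable {I : Inst}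

theorem inst_len : (instk I).1.length = (lak I.1.length).length := by simp [instk]

/-- The label of a vertex. -/
def lab (i : Fin (instk I).1.length) : E := (lak I.1.length)[i.1]'(lt_of_lt_of_eq i.2 inst_len)

theorem lab_mem (i : Fin (instk I).1.length) : lab i ∈ (lak I.1.length).toFinset :=
  List.mem_toFinset.2 (List.getElem_mem _)

theorem lab_inj : Function.Injective (lab (I := I)) := by
  intro i j h
  unfold lab at h
  exact Fin.ext ((List.Nodup.getElem_inj_iff (lak_nodup _)).1 h)

theorem exists_lab {x : E} (hx : x ∈ (lak I.1.length).toFinset) :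
    ∃ i : Fin (instk I).1.length, lab i = x := by
  obtain ⟨i, hi, rfl⟩ := List.getElem_of_mem (List.mem_toFinset.1 hx)
  exact ⟨⟨i, by rwa [inst_len]⟩, rfl⟩

theorem ent_inst {a b : ℕ} (ha : a < (lak I.1.length).length) (hb : b < (lak I.1.length).length) :
    ent (instk I).1 a b = decide (adk I.1.length I.1 (lak I.1.length)[a] (lak I.1.length)[b]) := by
  simp [ent, instk, List.getD_eq_getElem?_getD, ha, hb]

theorem ent_inst_none {a b : ℕ}
    (h : ¬ (a < (lak I.1.length).length ∧ b < (lak I.1.length).length)) :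
    ent (instk I).1 a b = false := by
  unfold ent instk
  by_cases ha : a < (lak I.1.length).length
  · have hb : (lak I.1.length).length ≤ b := by
      by_contra hb
      exact h ⟨ha, by omega⟩
    simp [List.getD_eq_getElem?_getD, ha, hb]
  · simp [List.getD_eq_getElem?_getD, not_lt.1 ha]

theorem ent_red {a b : ℕ} (ha : a < (lak I.1.length).length) (hb : b < (lak I.1.length).length) :
    ent (instk I).2.1 a b =
      decide (rek I.1.length I.2.1 (lak I.1.length)[a] (lak I.1.length)[b]) := by
  simp [ent, instk, List.getD_eq_getElem?_getD, ha, hb]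

theorem ent_red_none {a b : ℕ}
    (h : ¬ (a < (lak I.1.length).length ∧ b < (lak I.1.length).length)) :
    ent (instk I).2.1 a b = false := by
  unfold ent instk
  by_cases ha : a < (lak I.1.length).length
  · have hb : (lak I.1.length).length ≤ b := by
      by_contra hb
      exact h ⟨ha, by omega⟩
    simp [List.getD_eq_getElem?_getD, ha, hb]
  · simp [List.getD_eq_getElem?_getD, not_lt.1 ha]

theorem ent_edge {a b : ℕ} (h : ent (instk I).1 a b = true) :
    ∃ (ha : a < (lak I.1.length).length) (hb : b < (lak I.1.length).length),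
      adk I.1.length I.1 (lak I.1.length)[a] (lak I.1.length)[b] := by
  by_cases h' : a < (lak I.1.length).length ∧ b < (lak I.1.length).length
  · rw [ent_inst h'.1 h'.2, decide_eq_true_iff] at h
    exact ⟨h'.1, h'.2, h⟩
  · rw [ent_inst_none h'] at h
    simp at h

theorem ent_redge {a b : ℕ} (h : ent (instk I).2.1 a b = true) :
    ∃ (ha : a < (lak I.1.length).length) (hb : b < (lak I.1.length).length),
      rek I.1.length I.2.1 (lak I.1.length)[a] (lak I.1.length)[b] := by
  by_cases h' : a < (lak I.1.length).length ∧ b < (lak I.1.length).length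
  · rw [ent_red h'.1 h'.2, decide_eq_true_iff] at h
    exact ⟨h'.1, h'.2, h⟩
  · rw [ent_red_none h'] at h
    simp at h

theorem rek_symm (hs : ∀ a b, ent I.2.1 a b = ent I.2.1 b a) {x y : E}
    (h : rek I.1.length I.2.1 x y) (hx : Vk I.1.length x) :
    rek I.1.length I.2.1 y x := by
  obtain ⟨a, b, c, d⟩ := x
  rcases h with ⟨h1, h2, rfl, h4⟩ | ⟨h1, h2, h3, rfl⟩ | ⟨h1, h2, h3, rfl⟩
  · simp only at h1 h2 h4
    subst h1
    subst h2
    exact Or.inl ⟨rfl, rfl, rfl, by rw [hs]; exact h4⟩
  · simp only at h1 h2 h3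
    refine Or.inr (Or.inr ⟨h1, ?_, ?_, ?_⟩)
    · show (b + 1) % 6 = 0
      omega
    · show 0 < b + 1
      omega
    · simp
  · simp only at h1 h2 h3
    have hb : b < 12 * I.1.length + 24 := by
      rcases Vk_cases hx with ⟨c', v, u, h, _⟩ | ⟨c', v, u, h, _⟩ | ⟨κ, j, v, u, h, hj, _⟩
      · simp only [Prod.mk.injEq] at h; omega
      · simp only [Prod.mk.injEq] at h; omega
      · simp only [Prod.mk.injEq] at h; omega
    refine Or.inr (Or.inl ⟨h1, ?_, ?_, ?_⟩)
    · show (b - 1) % 6 = 5
      omega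
    · show b - 1 < 12 * I.1.length + 23
      omega
    · show (a, b, c, d) = (a, b - 1 + 1, c, d)
      simp only [Prod.mk.injEq, true_and, and_true]
      omega

theorem adk_gad {n : ℕ} {A : List (List Bool)} {κ j v u : ℕ} (hκ : 2 ≤ κ) {y : E} :
    adk n A (κ, j, v, u) y ↔ (y = e0 n A (κ, j, v, u) ∨ y = e1 (κ, j, v, u) ∨
      y = e2 (κ, j, v, u)) := by
  have k0 : κ ≠ 0 := by omega
  have k1 : κ ≠ 1 := by omega
  unfold adk
  simp only [m0, m1, m2, k0, k1, if_false]
  by_cases k2 : κ = 2
  · simp only [k2, if_true]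
  · by_cases k3 : κ = 3
    · simp only [k3, if_true]
      rw [if_neg (by omega), if_neg (by omega), if_neg (by omega)]
      tauto
    · simp only [k2, k3, if_false]
      tauto

theorem rek_adk (hr : ∀ a b, ent I.2.1 a b = true → ent I.1 a b = true) {x y : E}
    (h : rek I.1.length I.2.1 x y) (hx : Vk I.1.length x) : adk I.1.length I.1 x y := by
  obtain ⟨a, b, c, d⟩ := x
  rcases h with ⟨h1, h2, rfl, h4⟩ | ⟨h1, h2, h3, rfl⟩ | ⟨h1, h2, h3, rfl⟩
  · simp only at h1 h2 h4
    subst h1
    subst h2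
    refine Or.inr (Or.inr ?_)
    simp [m2, hr _ _ h4]
  · simp only at h1 h2 h3
    refine (adk_gad (by omega)).2 (Or.inl ?_)
    simp only [e0]
    rw [if_neg (by omega), if_neg (by omega), if_neg (by omega)]
  · simp only at h1 h2 h3
    refine (adk_gad (by omega)).2 (Or.inl ?_)
    simp only [e0]
    rw [if_neg (by omega), if_neg (by omega), if_pos (by omega)]

theorem wf_instk (h : WF I) : WF (instk I) := by
  obtain ⟨h1, h2, h3, h4, h5, h6, h7⟩ := h
  refine ⟨?_, ?_, ?_, ?_, ?_, ?_, ?_⟩
  · intro r hr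
    simp only [instk, List.mem_map] at hr
    obtain ⟨x, _, rfl⟩ := hr
    simp [instk]
  · intro a b
    by_cases h : a < (lak I.1.length).length ∧ b < (lak I.1.length).length
    · rw [ent_inst h.1 h.2, ent_inst h.2 h.1]
      exact decide_eq_decide.2 ⟨adk_symm h2 (mem_lak.1 (List.getElem_mem _)),
        adk_symm h2 (mem_lak.1 (List.getElem_mem _))⟩
    · rw [ent_inst_none h, ent_inst_none (fun h' => h ⟨h'.2, h'.1⟩)]
  · intro a
    by_cases h : a < (lak I.1.length).length ∧ a < (lak I.1.length).length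
    · rw [ent_inst h.1 h.2]
      obtain ⟨e1, e2, e3, _⟩ := m_ne (n := I.1.length) (A := I.1) h3
        (mem_lak.1 (List.getElem_mem h.1))
      exact decide_eq_false (fun h' => h'.elim e1 (fun h' => h'.elim e2 e3))
    · exact ent_inst_none h
  · simp [instk]
  · intro r hr
    simp only [instk, List.mem_map] at hr
    obtain ⟨x, _, rfl⟩ := hr
    simp [instk]
  · intro a b
    by_cases h : a < (lak I.1.length).length ∧ b < (lak I.1.length).length
    · rw [ent_red h.1 h.2, ent_red h.2 h.1]
      exact decide_eq_decide.2 ⟨fun h' => rek_symm h6 h' (mem_lak.1 (List.getElem_mem _)),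
        fun h' => rek_symm h6 h' (mem_lak.1 (List.getElem_mem _))⟩
    · rw [ent_red_none h, ent_red_none (fun h' => h ⟨h'.2, h'.1⟩)]
  · intro a b hab
    obtain ⟨ha, hb, hab⟩ := ent_redge hab
    rw [ent_inst ha hb, decide_eq_true_iff]
    exact rek_adk h7 hab (mem_lak.1 (List.getElem_mem _))

theorem red_disjoint : RedDisjoint (instk I) := by
  intro v a b ha hb
  obtain ⟨hv, ha', ha⟩ := ent_redge ha
  obtain ⟨_, hb', hb⟩ := ent_redge hb
  suffices key : (lak I.1.length)[a] = (lak I.1.length)[b] from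
    (List.Nodup.getElem_inj_iff (lak_nodup _)).1 key
  rcases ha with ⟨h1, h2, h3, h4⟩ | ⟨h1, h2, h3, h4⟩ | ⟨h1, h2, h3, h4⟩ <;>
    rcases hb with ⟨g1, g2, g3, g4⟩ | ⟨g1, g2, g3, g4⟩ | ⟨g1, g2, g3, g4⟩
  · exact h3.trans g3.symm
  · omega
  · omega
  · omega
  · exact h4.trans g4.symm
  · omega
  · omega
  · omega
  · exact h4.trans g4.symm

theorem cubic (h : WF I) : Cubic (instk I) := by
  classical
  intro v
  have hx : Vk I.1.length (lab v) := mem_lak.1 (List.mem_toFinset.1 (lab_mem v))
  obtain ⟨v0, v1, v2⟩ := m_valid (A := I.1) hx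
  have v2 := v2 (fun a b hab => ent_lt h.1 hab)
  obtain ⟨_, _, _, e1, e2, e3⟩ := m_ne (n := I.1.length) (A := I.1) h.2.2.1 hx
  have e : (Finset.univ.filter (fun w : Fin (instk I).1.length =>
      ent (instk I).1 v.1 w.1 = true)).image lab =
      {m0 I.1.length I.1 (lab v), m1 I.1.length I.1 (lab v), m2 I.1.length I.1 (lab v)} := by
    ext y
    simp only [Finset.mem_filter, Finset.mem_image, Finset.mem_univ, true_and,
      Finset.mem_insert, Finset.mem_singleton]
    have hk : ∀ w : Fin (instk I).1.length, ent (instk I).1 v.1 w.1 =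
        decide (adk I.1.length I.1 (lab v) (lab w)) := fun w =>
      ent_inst (lt_of_lt_of_eq v.2 inst_len) (lt_of_lt_of_eq w.2 inst_len)
    constructor
    · rintro ⟨w, hw, rfl⟩
      rw [hk, decide_eq_true_iff] at hw
      exact hw
    · intro hy
      have hyl : y ∈ (lak I.1.length).toFinset := by
        rw [List.mem_toFinset, mem_lak]
        rcases hy with rfl | rfl | rfl
        · exact v0
        · exact v1
        · exact v2
      obtain ⟨w, rfl⟩ := exists_lab hyl
      exact ⟨w, by rw [hk, decide_eq_true_iff]; exact hy, rfl⟩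
  rw [← Finset.card_image_of_injective _ lab_inj, e]
  exact Finset.card_eq_three.2 ⟨_, _, _, e1, e2, e3, rfl⟩

/-- the colour of an edge -/
def cl (n : ℕ) (A : List (List Bool)) (x y : E) : Fin 3 :=
  if y = m0 n A x ∨ x = m0 n A y then 0 else if y = m1 n A x ∨ x = m1 n A y then 1 else 2

theorem cl_symm (n : ℕ) (A : List (List Bool)) (x y : E) : cl n A x y = cl n A y x := by
  unfold cl
  exact if_congr or_comm rfl (if_congr or_comm rfl rfl)

theorem cl_eq (h : WF I) {x y : E} (hx : Vk I.1.length x) (ha : adk I.1.length I.1 x y) :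
    (cl I.1.length I.1 x y = 0 ∧ y = m0 I.1.length I.1 x) ∨
    (cl I.1.length I.1 x y = 1 ∧ y = m1 I.1.length I.1 x) ∨
    (cl I.1.length I.1 x y = 2 ∧ y = m2 I.1.length I.1 x) := by
  obtain ⟨v0, v1, v2⟩ := m_valid (A := I.1) hx
  have v2 := v2 (fun a b hab => ent_lt h.1 hab)
  obtain ⟨_, _, _, q1, q2, q3⟩ := m_ne (n := I.1.length) (A := I.1) h.2.2.1 hx
  rcases ha with rfl | rfl | rfl
  · exact Or.inl ⟨if_pos (Or.inl rfl), rfl⟩
  · refine Or.inr (Or.inl ⟨?_, rfl⟩)
    unfold cl
    rw [if_neg, if_pos (Or.inl rfl)]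
    rintro (h' | h')
    · exact q1 h'.symm
    · apply q1
      conv_lhs => rw [h']
      exact m0_inv v1
  · refine Or.inr (Or.inr ⟨?_, rfl⟩)
    unfold cl
    rw [if_neg, if_neg]
    · rintro (h' | h')
      · exact q3 h'.symm
      · apply q3
        conv_lhs => rw [h']
        exact m1_inv v2
    · rintro (h' | h')
      · exact q2 h'.symm
      · apply q2
        conv_lhs => rw [h']
        exact m0_inv v2

theorem coloured (h : WF I) : Coloured3 (instk I) := by
  refine ⟨fun a b => cl I.1.length I.1 ((lak I.1.length).getD a (0, 0, 0, 0))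
    ((lak I.1.length).getD b (0, 0, 0, 0)), fun a b => cl_symm _ _ _ _, ?_⟩
  intro v a b ha hb hab hc
  obtain ⟨hv, ha', ha⟩ := ent_edge ha
  obtain ⟨_, hb', hb⟩ := ent_edge hb
  simp only at hc
  rw [List.getD_eq_getElem _ _ hv, List.getD_eq_getElem _ _ ha',
    List.getD_eq_getElem _ _ hb'] at hc
  have hx := mem_lak.1 (List.getElem_mem hv)
  apply hab
  suffices key : (lak I.1.length)[a] = (lak I.1.length)[b] from
    (List.Nodup.getElem_inj_iff (lak_nodup _)).1 key
  rcases cl_eq h hx ha with ⟨c1, c2⟩ | ⟨c1, c2⟩ | ⟨c1, c2⟩ <;>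
    rcases cl_eq h hx hb with ⟨d1, d2⟩ | ⟨d1, d2⟩ | ⟨d1, d2⟩ <;>
    first
      | exact c2.trans d2.symm
      | (exfalso; rw [c1, d1] at hc; exact absurd hc (by decide))

/-- the side of a label -/
def sd (s : ℕ → Bool) (x : E) : Bool :=
  if x.1 = 0 then xor (s x.2.2.1) (decide (x.2.1 = 1))
    else if x.1 = 1 then !(xor (s x.2.2.1) (decide (x.2.1 = 1)))
    else if x.1 = 5 then xor (!(s x.2.2.1)) (decide (x.2.1 % 2 = 0))
    else xor (s x.2.2.1) (decide (x.2.1 % 2 = 0))

theorem jd_par {n c : ℕ} (hc : c < 2) : decide (jd n c % 2 = 0) = !(decide (c = 1)) := by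
  have hc' : c = 0 ∨ c = 1 := by omega
  rcases hc' with rfl | rfl
  · simp [jd]
  · simp only [jd, one_ne_zero, if_false, decide_true, Bool.not_true, decide_eq_false_iff_not]
    omega

theorem sd_small {n : ℕ} {A : List (List Bool)} {s : ℕ → Bool}
    (hs : ∀ a b, ent A a b = true → s a ≠ s b) {x y : E} (hx : Vk n x) (h2 : x.1 < 2)
    (h : adk n A x y) : sd s x ≠ sd s y := by
  rcases Vk_cases hx with ⟨c, v, u, rfl, hc, hv, hu⟩ | ⟨c, v, u, rfl, hc, hv, hu⟩ |
    ⟨κ, j, v, u, rfl, hj, hv, hu, hκ⟩
  · rcases h with rfl | rfl | rfl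
    · simp only [m0, if_true]
      split_ifs
      · simp only [sd, jd_par hc]
        simp
      · simp [sd]
    · simp only [m1, if_true]
      split_ifs
      · simp [sd]
      · simp only [sd, jd_par hc]
        simp
    · simp only [m2, if_true]
      split_ifs with h0
      · have := hs _ _ h0
        simp only [sd, if_true]
        intro h'
        apply this
        exact Bool.xor_right_inj.1 (by rwa [Bool.xor_comm (decide (c = 1)), Bool.xor_comm (decide (c = 1))])
      · simp only [sd, jd_par hc]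
        simp
  · rcases h with rfl | rfl | rfl
    · simp [m0, sd]
    · simp [m1, sd]
    · simp only [m2, one_ne_zero, if_false, if_true]
      simp only [sd, jd_par hc]
      cases s v <;> cases decide (c = 1) <;> simp
  · simp only at h2
    omega

theorem e0_form {n : ℕ} {A : List (List Bool)} {κ j v u : ℕ} (hj : j < 12 * n + 24) :
    (e0 n A (κ, j, v, u)).1 < 2 ∨
      ∃ a, e0 n A (κ, j, v, u) = (κ, a, v, u) ∧ a % 2 ≠ j % 2 := by
  by_cases h0 : j = 0
  · have e : e0 n A (κ, j, v, u) = exd n A κ 0 v u := by simp [e0, h0]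
    rw [e]
    rcases exd_form (n := n) (A := A) (κ := κ) (c := 0) (v := v) (u := u) with h | h
    · exact Or.inl h
    · exact Or.inr ⟨_, h, by simp only [if_true]; omega⟩
  · by_cases h1 : j = 12 * n + 23
    · have e : e0 n A (κ, j, v, u) = exd n A κ 1 v u := by
        simp only [e0]
        rw [if_neg h0, if_pos h1]
      rw [e]
      rcases exd_form (n := n) (A := A) (κ := κ) (c := 1) (v := v) (u := u) with h | h
      · exact Or.inl h
      · exact Or.inr ⟨_, h, by rw [if_neg (by omega)]; omega⟩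
    · right
      by_cases h2 : j % 2 = 0
      · refine ⟨j - 1, ?_, by omega⟩
        simp only [e0]
        rw [if_neg h0, if_neg h1, if_pos h2]
      · refine ⟨j + 1, ?_, by omega⟩
        simp only [e0]
        rw [if_neg h0, if_neg h1, if_neg h2]

theorem gad_form {n : ℕ} {A : List (List Bool)} {κ j v u : ℕ} (hκ : 2 ≤ κ)
    (hj : j < 12 * n + 24) {y : E} (h : adk n A (κ, j, v, u) y) :
    y.1 < 2 ∨ ∃ a, y = (κ, a, v, u) ∧ a % 2 ≠ j % 2 := by
  rcases (adk_gad hκ).1 h with rfl | rfl | rfl
  · exact e0_form hj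
  · right
    by_cases h2 : j % 2 = 0
    · exact ⟨j + 1, by simp [e1, h2], by omega⟩
    · exact ⟨j - 1, by simp [e1, h2], by omega⟩
  · right
    by_cases h2 : j % 6 < 3
    · exact ⟨j + 3, by simp [e2, h2], by omega⟩
    · exact ⟨j - 3, by simp only [e2, h2, if_false], by omega⟩

theorem sd_ne {n : ℕ} {A : List (List Bool)} (hA : ∀ a b, ent A a b = true → a < n ∧ b < n)
    (hsy : ∀ a b, ent A a b = ent A b a) {s : ℕ → Bool}
    (hs : ∀ a b, ent A a b = true → s a ≠ s b) {x y : E} (hx : Vk n x)
    (h : adk n A x y) : sd s x ≠ sd s y := by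
  rcases Vk_cases hx with ⟨c, v, u, rfl, hc, hv, hu⟩ | ⟨c, v, u, rfl, hc, hv, hu⟩ |
    ⟨κ, j, v, u, rfl, hj, hv, hu, hκ⟩
  · exact sd_small hs hx (by simp) h
  · exact sd_small hs hx (by simp) h
  · rcases gad_form (by omega) hj h with h' | ⟨a, rfl, ha⟩
    · have hy : Vk n y := by
        obtain ⟨v0, v1, v2⟩ := m_valid (A := A) hx
        rcases h with rfl | rfl | rfl
        · exact v0
        · exact v1
        · exact v2 hA
      exact (sd_small hs hy h' (adk_symm hsy hx h)).symm
    · have k0 : κ ≠ 0 := by omega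
      have k1 : κ ≠ 1 := by omega
      have hd : decide (a % 2 = 0) = !(decide (j % 2 = 0)) := by
        by_cases h2 : j % 2 = 0
        · have h3 : ¬ a % 2 = 0 := by omega
          simp [h2, h3]
        · have h3 : a % 2 = 0 := by omega
          simp [h2, h3]
      simp only [sd, k0, k1, if_false, hd]
      cases s v <;> cases decide (j % 2 = 0) <;> split_ifs <;> simp

theorem bip (h : WF I) (hb : Bip I) : Bip (instk I) := by
  obtain ⟨s, hs⟩ := hb
  refine ⟨fun a => sd s ((lak I.1.length).getD a (0, 0, 0, 0)), fun a b hab => ?_⟩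
  obtain ⟨ha, hb, hab⟩ := ent_edge hab
  simp only
  rw [List.getD_eq_getElem _ _ ha, List.getD_eq_getElem _ _ hb]
  exact sd_ne (fun a b hab => ent_lt h.1 hab) h.2.1 hs (mem_lak.1 (List.getElem_mem ha)) hab

theorem yes_instk : Yes (instk I) ↔ ∃ g : E → E,
    (∀ x ∈ (lak I.1.length).toFinset, g x ∈ (lak I.1.length).toFinset ∧ g (g x) = x ∧
      adk I.1.length I.1 x (g x)) ∧
    ((lak I.1.length).toFinset.filter (fun x => rek I.1.length I.2.1 x (g x))).card =
      2 * kt I := by
  refine bridge (S := (lak I.1.length).toFinset) lab_inj lab_mem (fun x hx => exists_lab hx)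
    (fun x y => adk I.1.length I.1 x y) (fun x y => rek I.1.length I.2.1 x y)
    (fun i j : Fin (instk I).1.length => ent (instk I).1 i.1 j.1 = true)
    (fun i j : Fin (instk I).1.length => ent (instk I).2.1 i.1 j.1 = true) ?_ ?_ (2 * kt I)
  · intro i j
    rw [ent_inst (lt_of_lt_of_eq i.2 inst_len) (lt_of_lt_of_eq j.2 inst_len), decide_eq_true_iff]
    rfl
  · intro i j
    rw [ent_red (lt_of_lt_of_eq i.2 inst_len) (lt_of_lt_of_eq j.2 inst_len), decide_eq_true_iff]
    rfl

end

end Pool.Agent.H801.Em2
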