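import Pool.Agent.H801.Em.Bridge

set_option autoImplicit false

/-!
# The 3-edge-coloured cubic graph, on labels
-/

namespace Pool.Agent.H801.Em2

open Pool.Agent.NPC
open Pool.Agent.H801.Fvs (ent)
open Pool.Agent.H801.Em
open Pool.Agent.H801.Tri (E cube mem_cube cube_nodup)

/-- the end of a chain at the copy `c` -/
def jd (n c : ℕ) : ℕ := if c = 0 then 0 else 12 * n + 23

/-- the neighbour of an end of a chain outside its block -/
def exd (n : ℕ) (A : List (List Bool)) (κ c v u : ℕ) : E :=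
  if free n A κ v u = true then host κ c v u else (κ, (if c = 0 then 12 * n + 23 else 0), v, u)

/-- the connecting neighbour in a chain -/
def e0 (n : ℕ) (A : List (List Bool)) (x : E) : E :=
  if x.2.1 = 0 then exd n A x.1 0 x.2.2.1 x.2.2.2
    else if x.2.1 = 12 * n + 23 then exd n A x.1 1 x.2.2.1 x.2.2.2
    else if x.2.1 % 2 = 0 then (x.1, x.2.1 - 1, x.2.2.1, x.2.2.2)
    else (x.1, x.2.1 + 1, x.2.2.1, x.2.2.2)

/-- the second neighbour in a chain -/
def e1 (x : E) : E :=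
  if x.2.1 % 2 = 0 then (x.1, x.2.1 + 1, x.2.2.1, x.2.2.2)
    else (x.1, x.2.1 - 1, x.2.2.1, x.2.2.2)

/-- the third neighbour in a chain -/
def e2 (x : E) : E :=
  if x.2.1 % 6 < 3 then (x.1, x.2.1 + 3, x.2.2.1, x.2.2.2)
    else (x.1, x.2.1 - 3, x.2.2.1, x.2.2.2)

/-- the neighbour of colour 0 -/
def m0 (n : ℕ) (A : List (List Bool)) (x : E) : E :=
  if x.1 = 0 then (if x.2.2.2 = 0 then (2, jd n x.2.1, x.2.2.1, x.2.2.2)
      else (1, x.2.1, x.2.2.1, x.2.2.2 - 1))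
    else if x.1 = 1 then (0, x.2.1, x.2.2.1, x.2.2.2 + 1)
    else if x.1 = 2 then e0 n A x else e1 x

/-- the neighbour of colour 1 -/
def m1 (n : ℕ) (A : List (List Bool)) (x : E) : E :=
  if x.1 = 0 then (if x.2.2.2 + 1 < n then (1, x.2.1, x.2.2.1, x.2.2.2)
      else (3, jd n x.2.1, x.2.2.1, x.2.2.2))
    else if x.1 = 1 then (0, x.2.1, x.2.2.1, x.2.2.2)
    else if x.1 = 2 then e1 x else if x.1 = 3 then e0 n A x else e2 x

/-- the neighbour of colour 2 -/
def m2 (n : ℕ) (A : List (List Bool)) (x : E) : E :=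
  if x.1 = 0 then (if ent A x.2.2.1 x.2.2.2 = true then (0, x.2.1, x.2.2.2, x.2.2.1)
      else (4, jd n x.2.1, x.2.2.1, x.2.2.2))
    else if x.1 = 1 then (5, jd n x.2.1, x.2.2.1, x.2.2.2)
    else if x.1 = 2 then e2 x else if x.1 = 3 then e2 x else e0 n A x

/-- adjacency -/
def adk (n : ℕ) (A : List (List Bool)) (x y : E) : Prop :=
  y = m0 n A x ∨ y = m1 n A x ∨ y = m2 n A x

/-- red edges -/
def rek (n : ℕ) (R : List (List Bool)) (x y : E) : Prop :=
  (x.1 = 0 ∧ x.2.1 = 0 ∧ y = (0, 0, x.2.2.2, x.2.2.1) ∧ ent R x.2.2.1 x.2.2.2 = true) ∨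
  (1 < x.1 ∧ x.2.1 % 6 = 5 ∧ x.2.1 < 12 * n + 23 ∧ y = (x.1, x.2.1 + 1, x.2.2.1, x.2.2.2)) ∨
  (1 < x.1 ∧ x.2.1 % 6 = 0 ∧ 0 < x.2.1 ∧ y = (x.1, x.2.1 - 1, x.2.2.1, x.2.2.2))

instance (n : ℕ) (A : List (List Bool)) (x y : E) : Decidable (adk n A x y) := by
  unfold adk; infer_instance

instance (n : ℕ) (R : List (List Bool)) (x y : E) : Decidable (rek n R x y) := by
  unfold rek; infer_instance

/-- the labels of the vertices -/
def Vk (n : ℕ) (x : E) : Prop :=
  (x.1 = 0 ∧ x.2.1 < 2 ∧ x.2.2.1 < n ∧ x.2.2.2 < n) ∨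
  (x.1 = 1 ∧ x.2.1 < 2 ∧ x.2.2.1 < n ∧ x.2.2.2 + 1 < n) ∨
  ((x.1 = 2 ∨ x.1 = 3 ∨ x.1 = 4) ∧ x.2.1 < 12 * n + 24 ∧ x.2.2.1 < n ∧ x.2.2.2 < n) ∨
  (x.1 = 5 ∧ x.2.1 < 12 * n + 24 ∧ x.2.2.1 < n ∧ x.2.2.2 + 1 < n)

/-- the list of the labels -/
def lak (n : ℕ) : List E :=
  cube 0 2 n n ++ (cube 1 2 n (n - 1) ++ (cube 2 (12 * n + 24) n n ++
    (cube 3 (12 * n + 24) n n ++ (cube 4 (12 * n + 24) n n ++ cube 5 (12 * n + 24) n (n - 1)))))

theorem mem_lak {n : ℕ} {x : E} : x ∈ lak n ↔ Vk n x := by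
  unfold lak Vk
  simp only [List.mem_append, mem_cube]
  constructor
  · rintro (h | h | h | h | h | h)
    · exact Or.inl h
    · exact Or.inr (Or.inl ⟨h.1, h.2.1, h.2.2.1, by omega⟩)
    · exact Or.inr (Or.inr (Or.inl ⟨Or.inl h.1, h.2⟩))
    · exact Or.inr (Or.inr (Or.inl ⟨Or.inr (Or.inl h.1), h.2⟩))
    · exact Or.inr (Or.inr (Or.inl ⟨Or.inr (Or.inr h.1), h.2⟩))
    · exact Or.inr (Or.inr (Or.inr ⟨h.1, h.2.1, h.2.2.1, by omega⟩))
  · rintro (h | h | ⟨h | h | h, h'⟩ | h)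
    · exact Or.inl h
    · exact Or.inr (Or.inl ⟨h.1, h.2.1, h.2.2.1, by omega⟩)
    · exact Or.inr (Or.inr (Or.inl ⟨h, h'⟩))
    · exact Or.inr (Or.inr (Or.inr (Or.inl ⟨h, h'⟩)))
    · exact Or.inr (Or.inr (Or.inr (Or.inr (Or.inl ⟨h, h'⟩))))
    · exact Or.inr (Or.inr (Or.inr (Or.inr (Or.inr ⟨h.1, h.2.1, h.2.2.1, by omega⟩))))

theorem lak_nodup (n : ℕ) : (lak n).Nodup := by
  unfold lak
  have key : ∀ {l l' : List E}, l.Nodup → l'.Nodup → (∀ x ∈ l, ∀ y ∈ l', x.1 < y.1) →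
      (l ++ l').Nodup := by
    intro l l' h h' hd
    rw [List.nodup_append]
    exact ⟨h, h', fun x hx y hy e => by have := hd x hx y hy; rw [e] at this; omega⟩
  refine key (cube_nodup _ _ _ _) (key (cube_nodup _ _ _ _) (key (cube_nodup _ _ _ _)
    (key (cube_nodup _ _ _ _) (key (cube_nodup _ _ _ _) (cube_nodup _ _ _ _) ?_) ?_) ?_) ?_) ?_ <;>
  · intro x hx y hy
    simp only [List.mem_append, mem_cube] at hx hy
    omega

section

variable {n : ℕ} {A : List (List Bool)}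

theorem Vk_cases {x : E} (h : Vk n x) :
    (∃ c v u, x = (0, c, v, u) ∧ c < 2 ∧ v < n ∧ u < n) ∨
    (∃ c v u, x = (1, c, v, u) ∧ c < 2 ∧ v < n ∧ u + 1 < n) ∨
    (∃ κ j v u, x = (κ, j, v, u) ∧ j < 12 * n + 24 ∧ v < n ∧ u < n ∧
      (κ = 2 ∨ κ = 3 ∨ κ = 4 ∨ (κ = 5 ∧ u + 1 < n))) := by
  obtain ⟨a, b, c, d⟩ := x
  unfold Vk at h
  simp only at h
  rcases h with h | h | h | h
  · exact Or.inl ⟨b, c, d, by rw [h.1], h.2⟩
  · exact Or.inr (Or.inl ⟨b, c, d, by rw [h.1], h.2⟩)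
  · exact Or.inr (Or.inr ⟨a, b, c, d, rfl, h.2.1, h.2.2.1, h.2.2.2, by omega⟩)
  · exact Or.inr (Or.inr ⟨a, b, c, d, rfl, h.2.1, h.2.2.1, by omega, by omega⟩)

theorem K0 {c v u : ℕ} : Vk n (0, c, v, u) ↔ c < 2 ∧ v < n ∧ u < n := by
  unfold Vk; simp

theorem K1 {c v u : ℕ} : Vk n (1, c, v, u) ↔ c < 2 ∧ v < n ∧ u + 1 < n := by
  unfold Vk; simp

theorem Kg {κ j v u : ℕ} (hj : j < 12 * n + 24) (hv : v < n) (hu : u < n)
    (hκ : κ = 2 ∨ κ = 3 ∨ κ = 4 ∨ (κ = 5 ∧ u + 1 < n)) : Vk n (κ, j, v, u) := by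
  unfold Vk
  rcases hκ with h | h | h | ⟨h, h'⟩
  · exact Or.inr (Or.inr (Or.inl ⟨Or.inl h, hj, hv, hu⟩))
  · exact Or.inr (Or.inr (Or.inl ⟨Or.inr (Or.inl h), hj, hv, hu⟩))
  · exact Or.inr (Or.inr (Or.inl ⟨Or.inr (Or.inr h), hj, hv, hu⟩))
  · exact Or.inr (Or.inr (Or.inr ⟨h, hj, hv, h'⟩))

theorem jd_lt {c : ℕ} : jd n c < 12 * n + 24 := by
  unfold jd; split_ifs <;> omega

theorem V_e1 {κ j v u : ℕ} (hj : j < 12 * n + 24) (hv : v < n) (hu : u < n)
    (hκ : κ = 2 ∨ κ = 3 ∨ κ = 4 ∨ (κ = 5 ∧ u + 1 < n)) : Vk n (e1 (κ, j, v, u)) := by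
  simp only [e1]
  split_ifs
  · exact Kg (by omega) hv hu hκ
  · exact Kg (by omega) hv hu hκ

theorem V_e2 {κ j v u : ℕ} (hj : j < 12 * n + 24) (hv : v < n) (hu : u < n)
    (hκ : κ = 2 ∨ κ = 3 ∨ κ = 4 ∨ (κ = 5 ∧ u + 1 < n)) : Vk n (e2 (κ, j, v, u)) := by
  simp only [e2]
  split_ifs
  · exact Kg (by omega) hv hu hκ
  · exact Kg (by omega) hv hu hκ

theorem V_exd {κ c v u : ℕ} (hc : c < 2) (hv : v < n) (hu : u < n)
    (hκ : κ = 2 ∨ κ = 3 ∨ κ = 4 ∨ (κ = 5 ∧ u + 1 < n)) : Vk n (exd n A κ c v u) := by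
  unfold exd
  by_cases hf : free n A κ v u = true
  · rw [if_pos hf]
    unfold host
    split_ifs with h5
    · exact K1.2 ⟨hc, hv, by omega⟩
    · exact K0.2 ⟨hc, hv, hu⟩
  · rw [if_neg hf]
    exact Kg (by split_ifs <;> omega) hv hu hκ

theorem V_e0 {κ j v u : ℕ} (hj : j < 12 * n + 24) (hv : v < n) (hu : u < n)
    (hκ : κ = 2 ∨ κ = 3 ∨ κ = 4 ∨ (κ = 5 ∧ u + 1 < n)) : Vk n (e0 n A (κ, j, v, u)) := by
  simp only [e0]
  split_ifs
  · exact V_exd (by omega) hv hu hκ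
  · exact V_exd (by omega) hv hu hκ
  · exact Kg (by omega) hv hu hκ
  · exact Kg (by omega) hv hu hκ

theorem m_valid {x : E} (h : Vk n x) : Vk n (m0 n A x) ∧ Vk n (m1 n A x) ∧
    ((∀ a b, ent A a b = true → a < n ∧ b < n) → Vk n (m2 n A x)) := by
  rcases Vk_cases h with ⟨c, v, u, rfl, hc, hv, hu⟩ | ⟨c, v, u, rfl, hc, hv, hu⟩ |
    ⟨κ, j, v, u, rfl, hj, hv, hu, hκ⟩
  · refine ⟨?_, ?_, fun hA => ?_⟩
    · simp only [m0, if_true]
      split_ifs
      · exact Kg jd_lt hv hu (Or.inl rfl)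
      · exact K1.2 ⟨hc, hv, by omega⟩
    · simp only [m1, if_true]
      split_ifs
      · exact K1.2 ⟨hc, hv, by omega⟩
      · exact Kg jd_lt hv hu (Or.inr (Or.inl rfl))
    · simp only [m2, if_true]
      split_ifs
      · exact K0.2 ⟨hc, hu, hv⟩
      · exact Kg jd_lt hv hu (Or.inr (Or.inr (Or.inl rfl)))
  · refine ⟨?_, ?_, fun _ => ?_⟩
    · simp only [m0, one_ne_zero, if_false, if_true]
      exact K0.2 ⟨hc, hv, by omega⟩
    · simp only [m1, one_ne_zero, if_false, if_true]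
      exact K0.2 ⟨hc, hv, by omega⟩
    · simp only [m2, one_ne_zero, if_false, if_true]
      exact Kg jd_lt hv (by omega) (Or.inr (Or.inr (Or.inr ⟨rfl, hu⟩)))
  · have k0 : κ ≠ 0 := by omega
    have k1 : κ ≠ 1 := by omega
    refine ⟨?_, ?_, fun _ => ?_⟩
    · simp only [m0, k0, k1, if_false]
      split_ifs
      · exact V_e0 hj hv hu hκ
      · exact V_e1 hj hv hu hκ
    · simp only [m1, k0, k1, if_false]
      split_ifs
      · exact V_e1 hj hv hu hκ
      · exact V_e0 hj hv hu hκ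
      · exact V_e2 hj hv hu hκ
    · simp only [m2, k0, k1, if_false]
      split_ifs
      · exact V_e2 hj hv hu hκ
      · exact V_e2 hj hv hu hκ
      · exact V_e0 hj hv hu hκ

theorem e1_inv {κ j v u : ℕ} : e1 (e1 (κ, j, v, u)) = (κ, j, v, u) := by
  by_cases h : j % 2 = 0
  · have h1 : (j + 1) % 2 ≠ 0 := by omega
    simp [e1, h, h1]
  · have h1 : (j - 1) % 2 = 0 := by omega
    have h2 : j - 1 + 1 = j := by omega
    simp [e1, h, h1, h2]

theorem e2_inv {κ j v u : ℕ} : e2 (e2 (κ, j, v, u)) = (κ, j, v, u) := by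
  by_cases h : j % 6 < 3
  · have h1 : ¬ (j + 3) % 6 < 3 := by omega
    simp [e2, h, h1]
  · have h1 : (j - 3) % 6 < 3 := by omega
    have h2 : j - 3 + 3 = j := by omega
    simp only [e2, h, if_false]
    simp only [h1, if_true, h2]

theorem e_fst {x : E} : (e1 x).1 = x.1 ∧ (e2 x).1 = x.1 := by
  unfold e1 e2
  constructor <;> split_ifs <;> rfl

/-- the connecting neighbour: three cases -/
theorem e0_cases {κ j v u : ℕ} (hj : j < 12 * n + 24) :
    (∃ c, c < 2 ∧ j = jd n c ∧ e0 n A (κ, j, v, u) = exd n A κ c v u) ∨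
    (∃ i, i < 12 * n + 24 ∧ e0 n A (κ, j, v, u) = (κ, i, v, u) ∧
      e0 n A (κ, i, v, u) = (κ, j, v, u)) := by
  by_cases h0 : j = 0
  · exact Or.inl ⟨0, by omega, by simp [jd, h0], by simp [e0, h0]⟩
  · by_cases h1 : j = 12 * n + 23
    · refine Or.inl ⟨1, by omega, by simp [jd, h1], ?_⟩
      simp only [e0]
      rw [if_neg h0, if_pos h1]
    · right
      by_cases h2 : j % 2 = 0
      · refine ⟨j - 1, by omega, ?_, ?_⟩
        · simp only [e0]
          rw [if_neg h0, if_neg h1, if_pos h2]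
        · simp only [e0]
          rw [if_neg (by omega), if_neg (by omega), if_neg (by omega)]
          simp only [Prod.mk.injEq, true_and, and_true]
          omega
      · refine ⟨j + 1, by omega, ?_, ?_⟩
        · simp only [e0]
          rw [if_neg h0, if_neg h1, if_neg h2]
        · simp only [e0]
          rw [if_neg (by omega), if_neg (by omega), if_pos (by omega)]
          simp only [Prod.mk.injEq, true_and, and_true]
          omega

theorem e0_jd {κ c v u : ℕ} (hc : c < 2) : e0 n A (κ, jd n c, v, u) = exd n A κ c v u := by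
  have hc' : c = 0 ∨ c = 1 := by omega
  rcases hc' with rfl | rfl
  · simp [e0, jd]
  · simp [e0, jd]

theorem exd_closed {κ c v u : ℕ} (hc : c < 2) (hf : ¬ free n A κ v u = true) :
    e0 n A (exd n A κ c v u) = (κ, jd n c, v, u) := by
  have hc' : c = 0 ∨ c = 1 := by omega
  rcases hc' with rfl | rfl
  · simp [exd, hf, e0, jd]
  · simp [exd, hf, e0, jd]

theorem m0_inv {x : E} (h : Vk n x) : m0 n A (m0 n A x) = x := by
  rcases Vk_cases h with ⟨c, v, u, rfl, hc, hv, hu⟩ | ⟨c, v, u, rfl, hc, hv, hu⟩ |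
    ⟨κ, j, v, u, rfl, hj, hv, hu, hκ⟩
  · by_cases h0 : u = 0
    · subst h0
      have e : m0 n A (0, c, v, 0) = (2, jd n c, v, 0) := by simp [m0]
      have e' : m0 n A (2, jd n c, v, 0) = e0 n A (2, jd n c, v, 0) := by simp [m0]
      rw [e, e', e0_jd hc]
      simp [exd, free, host]
    · have e : m0 n A (0, c, v, u) = (1, c, v, u - 1) := by simp [m0, h0]
      rw [e]
      simp only [m0, one_ne_zero, if_false, if_true, Prod.mk.injEq, true_and]
      omega
  · have e : m0 n A (1, c, v, u) = (0, c, v, u + 1) := by simp [m0]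
    rw [e]
    simp [m0]
  · have k0 : κ ≠ 0 := by omega
    have k1 : κ ≠ 1 := by omega
    by_cases k2 : κ = 2
    · subst k2
      have e : ∀ i, m0 n A (2, i, v, u) = e0 n A (2, i, v, u) := fun i => by simp [m0]
      rcases e0_cases (n := n) (A := A) (κ := 2) (v := v) (u := u) hj with
        ⟨c, hc, rfl, h1⟩ | ⟨i, hi, h1, h2⟩
      · rw [e, h1]
        by_cases hf : free n A 2 v u = true
        · have hu0 : u = 0 := by simpa [free] using hf
          subst hu0
          simp [exd, free, host, m0]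
        · have h3 := exd_closed (n := n) (A := A) hc hf
          have h4 : exd n A 2 c v u = (2, (if c = 0 then 12 * n + 23 else 0), v, u) := by
            simp [exd, hf]
          rw [h4] at h3 ⊢
          rw [e, h3]
      · rw [e, h1, e, h2]
    · have e : ∀ i, m0 n A (κ, i, v, u) = e1 (κ, i, v, u) := fun i => by
        simp [m0, k0, k1, k2]
      rw [e]
      have h1 : e1 (κ, j, v, u) = (κ, (e1 (κ, j, v, u)).2.1, v, u) := by
        unfold e1; split_ifs <;> rfl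
      rw [h1, e, ← h1, e1_inv]

theorem m1_inv {x : E} (h : Vk n x) : m1 n A (m1 n A x) = x := by
  rcases Vk_cases h with ⟨c, v, u, rfl, hc, hv, hu⟩ | ⟨c, v, u, rfl, hc, hv, hu⟩ |
    ⟨κ, j, v, u, rfl, hj, hv, hu, hκ⟩
  · by_cases h0 : u + 1 < n
    · have e : m1 n A (0, c, v, u) = (1, c, v, u) := by simp [m1, h0]
      rw [e]
      simp [m1]
    · have e : m1 n A (0, c, v, u) = (3, jd n c, v, u) := by simp [m1, h0]
      have e' : m1 n A (3, jd n c, v, u) = e0 n A (3, jd n c, v, u) := by simp [m1]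
      rw [e, e', e0_jd hc]
      simp [exd, free, host, h0]
  · have e : m1 n A (1, c, v, u) = (0, c, v, u) := by simp [m1]
    rw [e]
    simp [m1, hu]
  · have k0 : κ ≠ 0 := by omega
    have k1 : κ ≠ 1 := by omega
    by_cases k2 : κ = 2
    · subst k2
      have e : ∀ i, m1 n A (2, i, v, u) = e1 (2, i, v, u) := fun i => by simp [m1]
      rw [e]
      have h1 : e1 (2, j, v, u) = (2, (e1 (2, j, v, u)).2.1, v, u) := by
        unfold e1; split_ifs <;> rfl
      rw [h1, e, ← h1, e1_inv]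
    · by_cases k3 : κ = 3
      · subst k3
        have e : ∀ i, m1 n A (3, i, v, u) = e0 n A (3, i, v, u) := fun i => by simp [m1]
        rcases e0_cases (n := n) (A := A) (κ := 3) (v := v) (u := u) hj with
          ⟨c, hc, rfl, h1⟩ | ⟨i, hi, h1, h2⟩
        · rw [e, h1]
          by_cases hf : free n A 3 v u = true
          · have hu0 : ¬ u + 1 < n := by simpa [free] using hf
            simp [exd, hf, host, m1, hu0]
          · have h3 := exd_closed (n := n) (A := A) hc hf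
            have h4 : exd n A 3 c v u = (3, (if c = 0 then 12 * n + 23 else 0), v, u) := by
              simp [exd, hf]
            rw [h4] at h3 ⊢
            rw [e, h3]
        · rw [e, h1, e, h2]
      · have e : ∀ i, m1 n A (κ, i, v, u) = e2 (κ, i, v, u) := fun i => by
          simp [m1, k0, k1, k2, k3]
        rw [e]
        have h1 : e2 (κ, j, v, u) = (κ, (e2 (κ, j, v, u)).2.1, v, u) := by
          unfold e2; split_ifs <;> rfl
        rw [h1, e, ← h1, e2_inv]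

theorem m2_inv (hs : ∀ a b, ent A a b = ent A b a) {x : E} (h : Vk n x) :
    m2 n A (m2 n A x) = x := by
  rcases Vk_cases h with ⟨c, v, u, rfl, hc, hv, hu⟩ | ⟨c, v, u, rfl, hc, hv, hu⟩ |
    ⟨κ, j, v, u, rfl, hj, hv, hu, hκ⟩
  · by_cases h0 : ent A v u = true
    · have h1 : ent A u v = true := by rw [hs]; exact h0
      simp [m2, h0, h1]
    · have e : m2 n A (0, c, v, u) = (4, jd n c, v, u) := by simp [m2, h0]
      have e' : m2 n A (4, jd n c, v, u) = e0 n A (4, jd n c, v, u) := by simp [m2]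
      rw [e, e', e0_jd hc]
      simp [exd, free, host, h0]
  · have e : m2 n A (1, c, v, u) = (5, jd n c, v, u) := by simp [m2]
    have e' : m2 n A (5, jd n c, v, u) = e0 n A (5, jd n c, v, u) := by simp [m2]
    rw [e, e', e0_jd hc]
    simp [exd, free, host]
  · have k0 : κ ≠ 0 := by omega
    have k1 : κ ≠ 1 := by omega
    by_cases k2 : κ = 2 ∨ κ = 3
    · have e : ∀ i, m2 n A (κ, i, v, u) = e2 (κ, i, v, u) := fun i => by
        rcases k2 with rfl | rfl <;> simp [m2]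
      rw [e]
      have h1 : e2 (κ, j, v, u) = (κ, (e2 (κ, j, v, u)).2.1, v, u) := by
        unfold e2; split_ifs <;> rfl
      rw [h1, e, ← h1, e2_inv]
    · have k3 : κ ≠ 2 := fun h => k2 (Or.inl h)
      have k4 : κ ≠ 3 := fun h => k2 (Or.inr h)
      have e : ∀ i, m2 n A (κ, i, v, u) = e0 n A (κ, i, v, u) := fun i => by
        simp [m2, k0, k1, k3, k4]
      rcases e0_cases (n := n) (A := A) (κ := κ) (v := v) (u := u) hj with
        ⟨c, hc, rfl, h1⟩ | ⟨i, hi, h1, h2⟩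
      · rw [e, h1]
        by_cases hf : free n A κ v u = true
        · have k45 : κ = 4 ∨ κ = 5 := by omega
          rcases k45 with rfl | rfl
          · have hu0 : ¬ ent A v u = true := by simpa [free] using hf
            simp [exd, hf, host, m2, hu0]
          · simp [exd, hf, host, m2]
        · have h3 := exd_closed (n := n) (A := A) hc hf
          have h4 : exd n A κ c v u = (κ, (if c = 0 then 12 * n + 23 else 0), v, u) := by
            simp [exd, hf]
          rw [h4] at h3 ⊢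
          rw [e, h3]
      · rw [e, h1, e, h2]

theorem adk_symm (hs : ∀ a b, ent A a b = ent A b a) {x y : E} (h : Vk n x)
    (ha : adk n A x y) : adk n A y x := by
  rcases ha with rfl | rfl | rfl
  · exact Or.inl (m0_inv h).symm
  · exact Or.inr (Or.inl (m1_inv h).symm)
  · exact Or.inr (Or.inr (m2_inv hs h).symm)

theorem exd_form {κ c v u : ℕ} : (exd n A κ c v u).1 < 2 ∨
    exd n A κ c v u = (κ, (if c = 0 then 12 * n + 23 else 0), v, u) := by
  unfold exd
  by_cases hf : free n A κ v u = true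
  · rw [if_pos hf]
    left
    unfold host
    split_ifs
    · simp
    · simp
  · rw [if_neg hf]
    exact Or.inr rfl

theorem gad_ne6 {κ j v u : ℕ} (hκ : 2 ≤ κ) (hj : j < 12 * n + 24) :
    (κ, j, v, u) ≠ e0 n A (κ, j, v, u) ∧ (κ, j, v, u) ≠ e1 (κ, j, v, u) ∧
    (κ, j, v, u) ≠ e2 (κ, j, v, u) ∧ e0 n A (κ, j, v, u) ≠ e1 (κ, j, v, u) ∧
    e0 n A (κ, j, v, u) ≠ e2 (κ, j, v, u) ∧ e1 (κ, j, v, u) ≠ e2 (κ, j, v, u) := by
  have h1 : ∃ a, e1 (κ, j, v, u) = (κ, a, v, u) ∧ (j % 2 = 0 ∧ a = j + 1 ∨ j % 2 = 1 ∧ a + 1 = j) := by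
    by_cases h : j % 2 = 0
    · exact ⟨j + 1, by simp [e1, h], Or.inl ⟨h, rfl⟩⟩
    · exact ⟨j - 1, by simp [e1, h], Or.inr ⟨by omega, by omega⟩⟩
  have h2 : ∃ a, e2 (κ, j, v, u) = (κ, a, v, u) ∧ (a = j + 3 ∨ a + 3 = j) := by
    by_cases h : j % 6 < 3
    · exact ⟨j + 3, by simp [e2, h], Or.inl rfl⟩
    · exact ⟨j - 3, by simp only [e2, h, if_false], Or.inr (by omega)⟩
  have h0 : (e0 n A (κ, j, v, u)).1 < 2 ∨ ∃ a, e0 n A (κ, j, v, u) = (κ, a, v, u) ∧
      ((j = 0 ∧ a = 12 * n + 23) ∨ (j = 12 * n + 23 ∧ a = 0) ∨ (j % 2 = 0 ∧ a + 1 = j) ∨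
        (j % 2 = 1 ∧ a = j + 1)) := by
    by_cases h0 : j = 0
    · have e : e0 n A (κ, j, v, u) = exd n A κ 0 v u := by simp [e0, h0]
      rw [e]
      rcases exd_form (n := n) (A := A) (κ := κ) (c := 0) (v := v) (u := u) with h | h
      · exact Or.inl h
      · exact Or.inr ⟨_, h, Or.inl ⟨h0, by simp⟩⟩
    · by_cases h1 : j = 12 * n + 23
      · have e : e0 n A (κ, j, v, u) = exd n A κ 1 v u := by
          simp only [e0]
          rw [if_neg h0, if_pos h1]
        rw [e]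
        rcases exd_form (n := n) (A := A) (κ := κ) (c := 1) (v := v) (u := u) with h | h
        · exact Or.inl h
        · exact Or.inr ⟨_, h, Or.inr (Or.inl ⟨h1, by simp⟩)⟩
      · right
        by_cases h2 : j % 2 = 0
        · refine ⟨j - 1, ?_, by omega⟩
          simp only [e0]
          rw [if_neg h0, if_neg h1, if_pos h2]
        · refine ⟨j + 1, ?_, by omega⟩
          simp only [e0]
          rw [if_neg h0, if_neg h1, if_neg h2]
  obtain ⟨a1, q1, r1⟩ := h1
  obtain ⟨a2, q2, r2⟩ := h2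
  rw [q1, q2]
  refine ⟨?_, ?_, ?_, ?_, ?_, ?_⟩
  · intro h
    rcases h0 with h0 | ⟨a0, q0, r0⟩
    · rw [← h] at h0
      simp only at h0
      omega
    · rw [q0] at h
      simp only [Prod.mk.injEq, true_and, and_true] at h
      omega
  · intro h
    simp only [Prod.mk.injEq, true_and, and_true] at h
    omega
  · intro h
    simp only [Prod.mk.injEq, true_and, and_true] at h
    omega
  · intro h
    rcases h0 with h0 | ⟨a0, q0, r0⟩
    · rw [h] at h0
      simp only at h0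
      omega
    · rw [q0] at h
      simp only [Prod.mk.injEq, true_and, and_true] at h
      omega
  · intro h
    rcases h0 with h0 | ⟨a0, q0, r0⟩
    · rw [h] at h0
      simp only at h0
      omega
    · rw [q0] at h
      simp only [Prod.mk.injEq, true_and, and_true] at h
      omega
  · intro h
    simp only [Prod.mk.injEq, true_and, and_true] at h
    omega

theorem m_ne (hi : ∀ a, ent A a a = false) {x : E} (h : Vk n x) : x ≠ m0 n A x ∧ x ≠ m1 n A x ∧
    x ≠ m2 n A x ∧ m0 n A x ≠ m1 n A x ∧ m0 n A x ≠ m2 n A x ∧ m1 n A x ≠ m2 n A x := by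
  rcases Vk_cases h with ⟨c, v, u, rfl, hc, hv, hu⟩ | ⟨c, v, u, rfl, hc, hv, hu⟩ |
    ⟨κ, j, v, u, rfl, hj, hv, hu, hκ⟩
  · have h2 : (0, c, v, u) ≠ m2 n A (0, c, v, u) := by
      intro e
      simp only [m2] at e
      by_cases h0 : ent A v u = true
      · simp only [h0, if_true] at e
        simp only [Prod.mk.injEq, true_and] at e
        rw [e.1, hi] at h0
        exact absurd h0 (by simp)
      · simp [h0] at e
    refine ⟨?_, ?_, h2, ?_, ?_, ?_⟩ <;>
    · simp only [m0, m1, m2]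
      simp only [if_true]
      split_ifs <;> simp <;> omega
  · refine ⟨?_, ?_, ?_, ?_, ?_, ?_⟩ <;> simp [m0, m1, m2]
  · have k0 : κ ≠ 0 := by omega
    have k1 : κ ≠ 1 := by omega
    obtain ⟨q1, q2, q3, q4, q5, q6⟩ := gad_ne6 (n := n) (A := A) (κ := κ) (j := j) (v := v)
      (u := u) (by omega) hj
    simp only [m0, m1, m2, k0, k1, if_false]
    by_cases k2 : κ = 2
    · simp only [k2, if_true]
      rw [k2] at q1 q2 q3 q4 q5 q6
      exact ⟨q1, q2, q3, q4, q5, q6⟩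
    · by_cases k3 : κ = 3
      · subst k3
        simp only [if_true]
        rw [if_neg (by omega), if_neg (by omega), if_neg (by omega)]
        exact ⟨q2, q1, q3, q4.symm, q6, q5⟩
      · simp only [k2, k3, if_false]
        exact ⟨q2, q3, q1, q6, q4.symm, q5.symm⟩

end

end Pool.Agent.H801.Em2
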