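import Pool.Agent.H801.Em2.Bridge

set_option autoImplicit false

/-!
# Correctness of the reduction
-/

namespace Pool.Agent.H801.Em2

open Pool.Agent.NPC
open Pool.Agent.H801.Fvs (ent)
open Pool.Agent.H801.Em
open Pool.Agent.H801.Tri (E cube mem_cube cube_nodup)

/-- `g` is a perfect matching of the graph on labels -/
def Mat (n : ℕ) (A : List (List Bool)) (g : E → E) : Prop :=
  ∀ x, Vk n x → Vk n (g x) ∧ g (g x) = x ∧ adk n A x (g x)

theorem count {n : ℕ} {R : List (List Bool)} {f : ℕ → ℕ} {g : E → E} (hf : ∀ v < n, f v < n)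
    (h : ∀ v < n, ∀ u < n, (g (0, 0, v, u) = (0, 0, u, v) ↔ u = f v))
    (hg : ∀ x, Vk n x → 1 < x.1 → ¬ rek n R x (g x)) :
    ((lak n).toFinset.filter (fun x => rek n R x (g x))).card =
      ((Finset.range n).filter (fun v => ent R v (f v) = true)).card := by
  classical
  have e : (lak n).toFinset.filter (fun x => rek n R x (g x)) =
      ((Finset.range n).filter (fun v => ent R v (f v) = true)).image
        (fun v => ((0, 0, v, f v) : E)) := by
    ext x
    simp only [Finset.mem_filter, Finset.mem_image, List.mem_toFinset, mem_lak,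
      Finset.mem_range]
    constructor
    · rintro ⟨hV, hr⟩
      have hr' := hr
      rcases hr with ⟨h1, h2, h3, h4⟩ | ⟨h1, _⟩ | ⟨h1, _⟩
      · obtain ⟨a, b, c, d⟩ := x
        simp only at h1 h2 h3 h4
        subst h1
        subst h2
        rw [K0] at hV
        have hd := (h c hV.2.1 d hV.2.2).1 h3
        subst hd
        exact ⟨c, ⟨hV.2.1, h4⟩, rfl⟩
      · exact absurd hr' (hg x hV h1)
      · exact absurd hr' (hg x hV h1)
    · rintro ⟨v, ⟨hv, hr⟩, rfl⟩
      exact ⟨K0.2 ⟨by omega, hv, hf v hv⟩, Or.inl ⟨rfl, rfl, (h v hv _ (hf v hv)).2 rfl, hr⟩⟩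
  rw [e, Finset.card_image_of_injective]
  intro a b hab
  simp only [Prod.mk.injEq, true_and] at hab
  exact hab.1

/-- The matching of the new graph. -/
def gl (f : ℕ → ℕ) (x : E) : E :=
  if x.1 = 0 then
    (if x.2.2.2 = f x.2.2.1 then (0, x.2.1, x.2.2.2, x.2.2.1)
      else if x.2.2.2 < f x.2.2.1 then (1, x.2.1, x.2.2.1, x.2.2.2)
      else (1, x.2.1, x.2.2.1, x.2.2.2 - 1))
  else if x.1 = 1 then
    (if x.2.2.2 < f x.2.2.1 then (0, x.2.1, x.2.2.1, x.2.2.2)
      else (0, x.2.1, x.2.2.1, x.2.2.2 + 1))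
  else e1 x

theorem fwd {n : ℕ} {A : List (List Bool)} {f : ℕ → ℕ}
    (hf : ∀ v < n, f v < n ∧ f (f v) = v ∧ ent A v (f v) = true) : Mat n A (gl f) := by
  intro x hx
  rcases Vk_cases hx with ⟨c, v, u, rfl, hc, hv, hu⟩ | ⟨c, v, u, rfl, hc, hv, hu⟩ |
    ⟨κ, j, v, u, rfl, hj, hv, hu, hκ⟩
  · obtain ⟨h1, h2, h3⟩ := hf v hv
    rcases lt_trichotomy u (f v) with h0 | h0 | h0
    · have e : gl f (0, c, v, u) = (1, c, v, u) := by
        simp [gl, h0, h0.ne]
      rw [e]
      refine ⟨K1.2 ⟨hc, hv, by omega⟩, by simp [gl, h0], Or.inr (Or.inl ?_)⟩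
      have : u + 1 < n := by omega
      simp [m1, this]
    · subst h0
      have e : gl f (0, c, v, f v) = (0, c, f v, v) := by
        simp [gl]
      rw [e]
      refine ⟨K0.2 ⟨hc, hu, hv⟩, by simp [gl, h2], Or.inr (Or.inr ?_)⟩
      simp [m2, h3]
    · have e : gl f (0, c, v, u) = (1, c, v, u - 1) := by
        simp only [gl, if_true]
        rw [if_neg (by omega), if_neg (by omega)]
      rw [e]
      refine ⟨K1.2 ⟨hc, hv, by omega⟩, ?_, Or.inl ?_⟩
      · simp only [gl]
        rw [if_neg (by omega), if_pos trivial, if_neg (by omega)]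
        simp only [Prod.mk.injEq, true_and]
        omega
      · simp only [m0, if_true]
        rw [if_neg (by omega)]
  · obtain ⟨h1, h2, h3⟩ := hf v hv
    by_cases h0 : u < f v
    · have e : gl f (1, c, v, u) = (0, c, v, u) := by
        simp [gl, h0]
      rw [e]
      refine ⟨K0.2 ⟨hc, hv, by omega⟩, by simp [gl, h0, h0.ne], Or.inr (Or.inl ?_)⟩
      simp [m1]
    · have e : gl f (1, c, v, u) = (0, c, v, u + 1) := by
        simp [gl, h0]
      rw [e]
      refine ⟨K0.2 ⟨hc, hv, by omega⟩, ?_, Or.inl ?_⟩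
      · simp only [gl, if_true]
        rw [if_neg (by omega), if_neg (by omega)]
        simp
      · simp [m0]
  · have k0 : κ ≠ 0 := by omega
    have k1 : κ ≠ 1 := by omega
    have e : ∀ i, gl f (κ, i, v, u) = e1 (κ, i, v, u) := fun i => by simp [gl, k0, k1]
    rw [e]
    refine ⟨V_e1 hj hv hu hκ, ?_, (adk_gad (by omega)).2 (Or.inr (Or.inl rfl))⟩
    have h1 : e1 (κ, j, v, u) = (κ, (e1 (κ, j, v, u)).2.1, v, u) := by
      unfold e1; split_ifs <;> rfl
    rw [h1, e, ← h1, e1_inv]

theorem fwd_red {n : ℕ} {R : List (List Bool)} {f : ℕ → ℕ} {x : E} (hx : 1 < x.1) :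
    ¬ rek n R x (gl f x) := by
  obtain ⟨κ, j, v, u⟩ := x
  simp only at hx
  have k0 : κ ≠ 0 := by omega
  have k1 : κ ≠ 1 := by omega
  have e : gl f (κ, j, v, u) = e1 (κ, j, v, u) := by simp [gl, k0, k1]
  rw [e]
  rintro (⟨h1, _⟩ | ⟨h1, h2, h3, h4⟩ | ⟨h1, h2, h3, h4⟩)
  · exact k0 h1
  · simp only at h2 h3
    simp only [e1] at h4
    rw [if_neg (by omega)] at h4
    simp only [Prod.mk.injEq, true_and, and_true] at h4
    omega
  · simp only at h2 h3
    simp only [e1] at h4
    rw [if_pos (by omega)] at h4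
    simp only [Prod.mk.injEq, true_and, and_true] at h4
    omega

theorem fwd_iff {f : ℕ → ℕ} {v u : ℕ} : gl f (0, 0, v, u) = (0, 0, u, v) ↔ u = f v := by
  constructor
  · intro h
    by_contra hne
    simp only [gl, if_true] at h
    rw [if_neg hne] at h
    split_ifs at h <;> simp at h
  · rintro rfl
    simp [gl]

section

variable {n : ℕ} {A : List (List Bool)} {g : E → E} {κ v u : ℕ}

/-- the chain is not used at the block `i` -/
def Q (g : E → E) (κ v u i : ℕ) : Prop :=
  g (κ, 6 * i, v, u) = (κ, 6 * i + 1, v, u) ∨ g (κ, 6 * i, v, u) = (κ, 6 * i + 3, v, u)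

/-- the chain is not used after the block `i` -/
def Q' (g : E → E) (κ v u i : ℕ) : Prop :=
  g (κ, 6 * i + 5, v, u) = (κ, 6 * i + 2, v, u) ∨ g (κ, 6 * i + 5, v, u) = (κ, 6 * i + 4, v, u)

theorem gad_three (hM : Mat n A g) (hκ : 2 ≤ κ) (hV : ∀ j < 12 * n + 24, Vk n (κ, j, v, u))
    {j : ℕ} (hj : j < 12 * n + 24) : g (κ, j, v, u) = e0 n A (κ, j, v, u) ∨
      g (κ, j, v, u) = e1 (κ, j, v, u) ∨ g (κ, j, v, u) = e2 (κ, j, v, u) :=
  (adk_gad hκ).1 (hM _ (hV j hj)).2.2

theorem block (hM : Mat n A g) (hκ : 2 ≤ κ) (hV : ∀ j < 12 * n + 24, Vk n (κ, j, v, u))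
    {i : ℕ} (hi : 6 * i + 5 < 12 * n + 24) : Q g κ v u i ↔ Q' g κ v u i := by
  have hs : ∀ a < 12 * n + 24, ∀ b, g (κ, a, v, u) = (κ, b, v, u) →
      g (κ, b, v, u) = (κ, a, v, u) := by
    intro a ha b h
    have := (hM _ (hV a ha)).2.1
    rwa [h] at this
  have q1 : g (κ, 6 * i + 1, v, u) = (κ, 6 * i + 2, v, u) ∨
      g (κ, 6 * i + 1, v, u) = (κ, 6 * i, v, u) ∨
      g (κ, 6 * i + 1, v, u) = (κ, 6 * i + 4, v, u) := by
    rcases gad_three hM hκ hV (j := 6 * i + 1) (by omega) with h | h | h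
    · left
      rw [h]
      simp only [e0]
      rw [if_neg (by omega), if_neg (by omega), if_neg (by omega)]
    · right; left
      rw [h]
      simp only [e1]
      rw [if_neg (by omega)]
      simp
    · right; right
      rw [h]
      simp only [e2]
      rw [if_pos (by omega)]
  have q2 : g (κ, 6 * i + 2, v, u) = (κ, 6 * i + 1, v, u) ∨
      g (κ, 6 * i + 2, v, u) = (κ, 6 * i + 3, v, u) ∨
      g (κ, 6 * i + 2, v, u) = (κ, 6 * i + 5, v, u) := by
    rcases gad_three hM hκ hV (j := 6 * i + 2) (by omega) with h | h | h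
    · left
      rw [h]
      simp only [e0]
      rw [if_neg (by omega), if_neg (by omega), if_pos (by omega)]
      simp
    · right; left
      rw [h]
      simp only [e1]
      rw [if_pos (by omega)]
    · right; right
      rw [h]
      simp only [e2]
      rw [if_pos (by omega)]
  have q3 : g (κ, 6 * i + 3, v, u) = (κ, 6 * i + 4, v, u) ∨
      g (κ, 6 * i + 3, v, u) = (κ, 6 * i + 2, v, u) ∨
      g (κ, 6 * i + 3, v, u) = (κ, 6 * i, v, u) := by
    rcases gad_three hM hκ hV (j := 6 * i + 3) (by omega) with h | h | h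
    · left
      rw [h]
      simp only [e0]
      rw [if_neg (by omega), if_neg (by omega), if_neg (by omega)]
    · right; left
      rw [h]
      simp only [e1]
      rw [if_neg (by omega)]
      simp
    · right; right
      rw [h]
      simp only [e2]
      rw [if_neg (by omega)]
      simp
  have q4 : g (κ, 6 * i + 4, v, u) = (κ, 6 * i + 3, v, u) ∨
      g (κ, 6 * i + 4, v, u) = (κ, 6 * i + 5, v, u) ∨
      g (κ, 6 * i + 4, v, u) = (κ, 6 * i + 1, v, u) := by
    rcases gad_three hM hκ hV (j := 6 * i + 4) (by omega) with h | h | h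
    · left
      rw [h]
      simp only [e0]
      rw [if_neg (by omega), if_neg (by omega), if_pos (by omega)]
      simp
    · right; left
      rw [h]
      simp only [e1]
      rw [if_pos (by omega)]
    · right; right
      rw [h]
      simp only [e2]
      rw [if_neg (by omega)]
      simp
  have inj : ∀ a b : ℕ, ((κ, a, v, u) : E) = (κ, b, v, u) → a = b := by
    intro a b h
    simpa using h
  have neq : ∀ a b c : ℕ, g (κ, a, v, u) = (κ, b, v, u) → g (κ, a, v, u) = (κ, c, v, u) →
      b = c := fun a b c h h' => inj _ _ (h.symm.trans h')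
  unfold Q Q'
  constructor
  · intro h
    by_contra hcon
    rw [not_or] at hcon
    have n2 : g (κ, 6 * i + 2, v, u) ≠ (κ, 6 * i + 5, v, u) :=
      fun h' => hcon.1 (hs _ (by omega) _ h')
    have n4 : g (κ, 6 * i + 4, v, u) ≠ (κ, 6 * i + 5, v, u) :=
      fun h' => hcon.2 (hs _ (by omega) _ h')
    rcases h with h | h
    · have h1 := hs _ (by omega) _ h
      rcases q2 with a | a | a
      · have := neq _ _ _ h1 (hs _ (by omega) _ a); omega
      · have a3 := hs _ (by omega) _ a
        rcases q4 with b | b | b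
        · have := neq _ _ _ a3 (hs _ (by omega) _ b); omega
        · exact n4 b
        · have := neq _ _ _ h1 (hs _ (by omega) _ b); omega
      · exact n2 a
    · have h3 := hs _ (by omega) _ h
      rcases q2 with a | a | a
      · have a1 := hs _ (by omega) _ a
        rcases q4 with b | b | b
        · have := neq _ _ _ h3 (hs _ (by omega) _ b); omega
        · exact n4 b
        · have := neq _ _ _ a1 (hs _ (by omega) _ b); omega
      · have := neq _ _ _ h3 (hs _ (by omega) _ a); omega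
      · exact n2 a
  · intro h
    by_contra hcon
    rw [not_or] at hcon
    have n1 : g (κ, 6 * i + 1, v, u) ≠ (κ, 6 * i, v, u) :=
      fun h' => hcon.1 (hs _ (by omega) _ h')
    have n3 : g (κ, 6 * i + 3, v, u) ≠ (κ, 6 * i, v, u) :=
      fun h' => hcon.2 (hs _ (by omega) _ h')
    rcases h with h | h
    · have h2 := hs _ (by omega) _ h
      rcases q1 with a | a | a
      · have := neq _ _ _ h2 (hs _ (by omega) _ a); omega
      · exact n1 a
      · have a4 := hs _ (by omega) _ a
        rcases q3 with b | b | b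
        · have := neq _ _ _ a4 (hs _ (by omega) _ b); omega
        · have := neq _ _ _ h2 (hs _ (by omega) _ b); omega
        · exact n3 b
    · have h4 := hs _ (by omega) _ h
      rcases q1 with a | a | a
      · have a2 := hs _ (by omega) _ a
        rcases q3 with b | b | b
        · have := neq _ _ _ h4 (hs _ (by omega) _ b); omega
        · have := neq _ _ _ a2 (hs _ (by omega) _ b); omega
        · exact n3 b
      · exact n1 a
      · have := neq _ _ _ h4 (hs _ (by omega) _ a); omega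

theorem right_used (hM : Mat n A g) (hκ : 2 ≤ κ) (hV : ∀ j < 12 * n + 24, Vk n (κ, j, v, u))
    {i : ℕ} (hi : 6 * i + 6 < 12 * n + 24) :
    ¬ Q' g κ v u i ↔ g (κ, 6 * i + 5, v, u) = (κ, 6 * i + 6, v, u) := by
  constructor
  · intro h
    rcases gad_three hM hκ hV (j := 6 * i + 5) (by omega) with h' | h' | h'
    · rw [h']
      simp only [e0]
      rw [if_neg (by omega), if_neg (by omega), if_neg (by omega)]
    · exfalso
      apply h
      right
      rw [h']
      simp only [e1]
      rw [if_neg (by omega)]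
      simp
    · exfalso
      apply h
      left
      rw [h']
      simp only [e2]
      rw [if_neg (by omega)]
      simp
  · intro h h'
    rcases h' with h' | h'
    · rw [h] at h'
      simp at h'
    · rw [h] at h'
      simp at h'

theorem left_used (hM : Mat n A g) (hκ : 2 ≤ κ) (hV : ∀ j < 12 * n + 24, Vk n (κ, j, v, u))
    {i : ℕ} (hi : 6 * i + 6 < 12 * n + 24) :
    ¬ Q g κ v u (i + 1) ↔ g (κ, 6 * i + 6, v, u) = (κ, 6 * i + 5, v, u) := by
  have hc : 6 * (i + 1) = 6 * i + 6 := by ring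
  unfold Q
  rw [hc]
  constructor
  · intro h
    rcases gad_three hM hκ hV (j := 6 * i + 6) (by omega) with h' | h' | h'
    · rw [h']
      simp only [e0]
      rw [if_neg (by omega), if_neg (by omega), if_pos (by omega)]
      simp
    · exfalso
      apply h
      left
      rw [h']
      simp only [e1]
      rw [if_pos (by omega)]
    · exfalso
      apply h
      right
      rw [h']
      simp only [e2]
      rw [if_pos (by omega)]
  · intro h h'
    rcases h' with h' | h'
    · rw [h] at h'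
      simp at h'
    · rw [h] at h'
      simp at h'

theorem step (hM : Mat n A g) (hκ : 2 ≤ κ) (hV : ∀ j < 12 * n + 24, Vk n (κ, j, v, u))
    {i : ℕ} (hi : 6 * i + 6 < 12 * n + 24) : Q g κ v u i ↔ Q g κ v u (i + 1) := by
  rw [block hM hκ hV (by omega), ← not_iff_not, right_used hM hκ hV hi, left_used hM hκ hV hi]
  constructor
  · intro h
    have := (hM _ (hV (6 * i + 5) (by omega))).2.1
    rwa [h] at this
  · intro h
    have := (hM _ (hV (6 * i + 6) (by omega))).2.1
    rwa [h] at this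

theorem all_Q (hM : Mat n A g) (hκ : 2 ≤ κ) (hV : ∀ j < 12 * n + 24, Vk n (κ, j, v, u))
    (i : ℕ) (hi : 6 * i < 12 * n + 24) : Q g κ v u 0 ↔ Q g κ v u i := by
  induction i with
  | zero => exact Iff.rfl
  | succ i ih => exact (ih (by omega)).trans (step hM hκ hV (by omega))

/-- a used chain has many red edges -/
theorem used_red {R : List (List Bool)} (hM : Mat n A g) (hκ : 2 ≤ κ)
    (hV : ∀ j < 12 * n + 24, Vk n (κ, j, v, u)) (h : ¬ Q g κ v u 0) :
    2 * n + 3 ≤ ((lak n).toFinset.filter (fun x => rek n R x (g x))).card := by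
  classical
  have hsub : (Finset.range (2 * n + 3)).image (fun i => ((κ, 6 * i + 5, v, u) : E)) ⊆
      (lak n).toFinset.filter (fun x => rek n R x (g x)) := by
    intro x hx
    rw [Finset.mem_image] at hx
    obtain ⟨i, hi, rfl⟩ := hx
    rw [Finset.mem_range] at hi
    rw [Finset.mem_filter, List.mem_toFinset, mem_lak]
    refine ⟨hV _ (by omega), Or.inr (Or.inl ⟨?_, ?_, ?_, ?_⟩)⟩
    · show 1 < κ
      omega
    · show (6 * i + 5) % 6 = 5
      omega
    · show 6 * i + 5 < 12 * n + 23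
      omega
    · have h1 : ¬ Q g κ v u i := fun h' => h ((all_Q hM hκ hV i (by omega)).2 h')
      rw [block hM hκ hV (by omega), right_used hM hκ hV (by omega)] at h1
      exact h1
  have hc := Finset.card_le_card hsub
  rwa [Finset.card_image_of_injective, Finset.card_range] at hc
  intro a b hab
  simp only [Prod.mk.injEq, true_and, and_true] at hab
  omega

/-- an unused chain has no red edge in the matching -/
theorem unused_red {R : List (List Bool)} (hM : Mat n A g) (hκ : 2 ≤ κ)
    (hV : ∀ j < 12 * n + 24, Vk n (κ, j, v, u)) (h : Q g κ v u 0) {j : ℕ}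
    (hj : j < 12 * n + 24) : ¬ rek n R (κ, j, v, u) (g (κ, j, v, u)) := by
  rintro (⟨h1, _⟩ | ⟨h1, h2, h3, h4⟩ | ⟨h1, h2, h3, h4⟩)
  · simp only at h1
    omega
  · simp only at h2 h3 h4
    obtain ⟨i, rfl⟩ : ∃ i, j = 6 * i + 5 := ⟨j / 6, by omega⟩
    have h5 := (all_Q hM hκ hV i (by omega)).1 h
    rw [block hM hκ hV (by omega)] at h5
    exact (right_used hM hκ hV (by omega)).2 h4 h5
  · simp only at h2 h3 h4
    obtain ⟨i, rfl⟩ : ∃ i, j = 6 * i + 6 := ⟨j / 6 - 1, by omega⟩
    have h5 := (all_Q hM hκ hV (i + 1) (by omega)).1 h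
    refine (left_used hM hκ hV (by omega)).2 ?_ h5
    rw [h4]
    simp

/-- no chain is used -/
def NoUse (n : ℕ) (g : E → E) : Prop := ∀ κ v u, v < n → u < n →
  (κ = 2 ∨ κ = 3 ∨ κ = 4 ∨ (κ = 5 ∧ u + 1 < n)) → Q g κ v u 0

theorem gad_ne' (hM : Mat n A g) (hN : NoUse n g) (hv : v < n) (hu : u < n)
    (hκ : κ = 2 ∨ κ = 3 ∨ κ = 4 ∨ (κ = 5 ∧ u + 1 < n)) {x : E}
    (hx : x.1 < 2) (hV' : Vk n x) : g x ≠ (κ, jd n 0, v, u) := by
  intro h
  have h1 := (hM x hV').2.1
  rw [h] at h1
  have h0 : jd n 0 = 6 * 0 := by simp [jd]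
  rw [h0] at h1
  rcases hN κ v u hv hu hκ with h2 | h2
  · rw [h2] at h1
    rw [← h1] at hx
    simp only at hx
    omega
  · rw [h2] at h1
    rw [← h1] at hx
    simp only at hx
    omega

theorem gP (hM : Mat n A g) (hN : NoUse n g) {v u : ℕ} (hv : v < n) (hu : u < n) :
    (∃ i, i + 1 < n ∧ g (0, 0, v, u) = (1, 0, v, i)) ∨
      (g (0, 0, v, u) = (0, 0, u, v) ∧ ent A v u = true) := by
  have hx : Vk n (0, 0, v, u) := K0.2 ⟨by omega, hv, hu⟩
  obtain ⟨_, _, h⟩ := hM _ hx
  rcases h with h | h | h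
  · simp only [m0, if_true] at h
    split_ifs at h with h0
    · exact absurd h (gad_ne' hM hN hv hu (Or.inl rfl) (by simp) hx)
    · exact Or.inl ⟨u - 1, by omega, h⟩
  · simp only [m1, if_true] at h
    split_ifs at h with h0
    · exact Or.inl ⟨u, h0, h⟩
    · exact absurd h (gad_ne' hM hN hv hu (Or.inr (Or.inl rfl)) (by simp) hx)
  · simp only [m2, if_true] at h
    split_ifs at h with h0
    · exact Or.inr ⟨h, h0⟩
    · exact absurd h (gad_ne' hM hN hv hu (Or.inr (Or.inr (Or.inl rfl))) (by simp) hx)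

theorem gMm (hM : Mat n A g) (hN : NoUse n g) {v i : ℕ} (hv : v < n) (hi : i + 1 < n) :
    ∃ u < n, g (1, 0, v, i) = (0, 0, v, u) := by
  have hx : Vk n (1, 0, v, i) := K1.2 ⟨by omega, hv, hi⟩
  obtain ⟨_, _, h⟩ := hM _ hx
  rcases h with h | h | h
  · exact ⟨i + 1, hi, by simpa [m0] using h⟩
  · exact ⟨i, by omega, by simpa [m1] using h⟩
  · exact absurd (by simpa [m2] using h) (gad_ne' hM hN hv (by omega)
      (Or.inr (Or.inr (Or.inr ⟨rfl, hi⟩))) (by simp) hx)

theorem exists_unique_u (hM : Mat n A g) (hN : NoUse n g) {v : ℕ} (hv : v < n) :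
    ∃ u, u < n ∧ ∀ w < n, (g (0, 0, v, w) = (0, 0, w, v) ↔ w = u) := by
  classical
  set S := (Finset.range n).filter (fun u => g (0, 0, v, u) = (0, 0, u, v)) with hS
  have himg : (Finset.range (n - 1)).image (fun i => (g (1, 0, v, i)).2.2.2) =
      (Finset.range n).filter (fun u => ¬ g (0, 0, v, u) = (0, 0, u, v)) := by
    ext u
    simp only [Finset.mem_image, Finset.mem_range, Finset.mem_filter]
    constructor
    · rintro ⟨i, hi, rfl⟩
      obtain ⟨u, hu, hg⟩ := gMm hM hN (v := v) (i := i) hv (by omega)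
      rw [hg]
      refine ⟨hu, fun h => ?_⟩
      have h1 := (hM _ (K1.2 ⟨by omega, hv, by omega⟩ : Vk n (1, 0, v, i))).2.1
      rw [hg] at h1
      simp only at h
      rw [h1] at h
      simp at h
    · rintro ⟨hu, hne⟩
      rcases gP hM hN hv hu with ⟨i, hi, hg⟩ | ⟨hg, _⟩
      · refine ⟨i, by omega, ?_⟩
        have h1 := (hM _ (K0.2 ⟨by omega, hv, hu⟩ : Vk n (0, 0, v, u))).2.1
        rw [hg] at h1
        rw [h1]
      · exact absurd hg hne
  have hinj : ((Finset.range (n - 1)).image (fun i => (g (1, 0, v, i)).2.2.2)).card = n - 1 := by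
    rw [Finset.card_image_of_injOn, Finset.card_range]
    intro i hi j hj hij
    simp only [Finset.coe_range, Set.mem_Iio] at hi hj
    simp only at hij
    obtain ⟨a, ha, hga⟩ := gMm hM hN (v := v) (i := i) hv (by omega)
    obtain ⟨b, hb, hgb⟩ := gMm hM hN (v := v) (i := j) hv (by omega)
    rw [hga, hgb] at hij
    simp only at hij
    subst hij
    have h1 := (hM _ (K1.2 ⟨by omega, hv, by omega⟩ : Vk n (1, 0, v, i))).2.1
    have h2 := (hM _ (K1.2 ⟨by omega, hv, by omega⟩ : Vk n (1, 0, v, j))).2.1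
    rw [hga] at h1
    rw [hgb] at h2
    have := h1.symm.trans h2
    simpa using this
  have hsum := Finset.card_filter_add_card_filter_not (s := Finset.range n)
    (fun u => g (0, 0, v, u) = (0, 0, u, v))
  rw [← himg, hinj, Finset.card_range] at hsum
  have hone : S.card = 1 := by
    rw [hS]
    omega
  obtain ⟨u, hu⟩ := Finset.card_eq_one.1 hone
  have hmem : u ∈ S := by rw [hu]; exact Finset.mem_singleton_self _
  refine ⟨u, Finset.mem_range.1 (Finset.mem_filter.1 hmem).1, fun w hw => ⟨fun h => ?_, ?_⟩⟩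
  · have : w ∈ S := Finset.mem_filter.2 ⟨Finset.mem_range.2 hw, h⟩
    rw [hu] at this
    exact Finset.mem_singleton.1 this
  · rintro rfl
    exact (Finset.mem_filter.1 hmem).2

theorem bwd (hM : Mat n A g) (hN : NoUse n g) : ∃ f : ℕ → ℕ,
    (∀ v < n, f v < n ∧ f (f v) = v ∧ ent A v (f v) = true) ∧
    (∀ v < n, ∀ u < n, (g (0, 0, v, u) = (0, 0, u, v) ↔ u = f v)) := by
  have : ∀ v, ∃ u, v < n → u < n ∧ ∀ w < n, (g (0, 0, v, w) = (0, 0, w, v) ↔ w = u) := by
    intro v
    by_cases hv : v < n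
    · obtain ⟨u, hu⟩ := exists_unique_u hM hN hv
      exact ⟨u, fun _ => hu⟩
    · exact ⟨0, fun h => absurd h hv⟩
  choose f hf using this
  refine ⟨f, fun v hv => ?_, fun v hv u hu => (hf v hv).2 u hu⟩
  obtain ⟨h1, h2⟩ := hf v hv
  have h3 := (h2 _ h1).2 rfl
  refine ⟨h1, ?_, ?_⟩
  · have h4 := (hM _ (K0.2 ⟨by omega, hv, h1⟩ : Vk n (0, 0, v, f v))).2.1
    rw [h3] at h4
    exact (((hf (f v) h1).2 v hv).1 h4).symm
  · rcases gP hM hN hv h1 with ⟨i, _, hg⟩ | ⟨_, hg⟩
    · rw [h3] at hg
      simp at hg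
    · exact hg

end

theorem yes_iff {I : Inst} : Yes (instk I) ↔ Yes I := by
  rw [yes_instk, yes_orig]
  constructor
  · rintro ⟨g, hg, hc⟩
    have hM : Mat I.1.length I.1 g := by
      intro x hx
      obtain ⟨h1, h2, h3⟩ := hg x (List.mem_toFinset.2 (mem_lak.2 hx))
      exact ⟨mem_lak.1 (List.mem_toFinset.1 h1), h2, h3⟩
    have hk : kt I ≤ I.1.length + 1 := by
      unfold kt; split_ifs <;> omega
    have hN : NoUse I.1.length g := by
      intro κ v u hv hu hκ
      by_contra hcon
      have := used_red (R := I.2.1) hM (by omega) (fun j hj => Kg hj hv hu hκ) hcon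
      omega
    obtain ⟨f, hf, hfg⟩ := bwd hM hN
    have hcount := count (R := I.2.1) (fun v hv => (hf v hv).1) hfg (by
      intro x hx h1
      rcases Vk_cases hx with ⟨c, v, u, rfl, _⟩ | ⟨c, v, u, rfl, _⟩ |
        ⟨κ, j, v, u, rfl, hj, hv, hu, hκ⟩
      · simp at h1
      · simp at h1
      · exact unused_red hM (by omega) (fun j hj => Kg hj hv hu hκ) (hN κ v u hv hu hκ) hj)
    refine ⟨f, fun v hv => ?_, ?_⟩
    · obtain ⟨h1, h2, h3⟩ := hf v (Finset.mem_range.1 hv)
      exact ⟨Finset.mem_range.2 h1, h2, h3⟩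
    · rw [hc] at hcount
      have hle := Finset.card_filter_le (Finset.range I.1.length)
        (fun v => ent I.2.1 v (f v) = true)
      rw [Finset.card_range] at hle
      rw [← hcount] at hle ⊢
      unfold kt at hle ⊢
      split_ifs at hle ⊢ <;> omega
  · rintro ⟨f, hf, hc⟩
    have hf' : ∀ v < I.1.length, f v < I.1.length ∧ f (f v) = v ∧ ent I.1 v (f v) = true := by
      intro v hv
      obtain ⟨h1, h2, h3⟩ := hf v (Finset.mem_range.2 hv)
      exact ⟨Finset.mem_range.1 h1, h2, h3⟩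
    refine ⟨gl f, fun x hx => ?_, ?_⟩
    · obtain ⟨h1, h2, h3⟩ := fwd hf' x (mem_lak.1 (List.mem_toFinset.1 hx))
      exact ⟨List.mem_toFinset.2 (mem_lak.2 h1), h2, h3⟩
    · rw [count (fun v hv => (hf' v hv).1) (fun v _ u _ => fwd_iff)
        (fun x _ hx => fwd_red hx), hc]
      have hle := Finset.card_filter_le (Finset.range I.1.length)
        (fun v => ent I.2.1 v (f v) = true)
      rw [Finset.card_range, hc] at hle
      unfold kt
      rw [if_pos (by omega)]

end Pool.Agent.H801.Em2
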