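import Pool.Agent.H801.Em2.Main
import Pool.Agent.H801.Em.Time

set_option autoImplicit false

/-!
# The reduction is computed in polynomial time
-/

namespace Pool.Agent.H801.Em2

open Pool.Agent.NPC
open Pool.Agent.H801.Fvs (ent)
open Pool.Agent.H801.Em
open Pool.Agent.H801.Tri (E cube mem_cube cube_nodup poly_cube poly_mk4 poly_ent)

section

variable {β : Type} [TEnc β] {n κ c v u : β → ℕ} {A R : β → List (List Bool)} {x y : β → E}

theorem poly_c {k : ℕ} : NPC.Poly (fun _ : β => k) := NPC.Poly.const k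

theorem poly_12 (hn : NPC.Poly n) (k : ℕ) : NPC.Poly (fun b => 12 * n b + k) :=
  NPC.Poly.add (NPC.Poly.mul (NPC.Poly.const 12) hn) (NPC.Poly.const k)

theorem poly_jd (hn : NPC.Poly n) (hc : NPC.Poly c) : NPC.Poly (fun b => jd (n b) (c b)) := by
  unfold jd
  exact NPC.Poly.ite (NPC.Poly.decide_eq hc poly_c) poly_c (poly_12 hn 23)

theorem poly_exd (hn : NPC.Poly n) (hA : NPC.Poly A) (hκ : NPC.Poly κ) (hc : NPC.Poly c)
    (hv : NPC.Poly v) (hu : NPC.Poly u) :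
    NPC.Poly (fun b => exd (n b) (A b) (κ b) (c b) (v b) (u b)) := by
  unfold exd
  exact NPC.Poly.ite (NPC.Poly.decide_bool (poly_free hn hA hκ hv hu)) (poly_host hκ hc hv hu)
    (poly_mk4 hκ (NPC.Poly.ite (NPC.Poly.decide_eq hc poly_c) (poly_12 hn 23) poly_c) hv hu)

theorem poly_e0 (hn : NPC.Poly n) (hA : NPC.Poly A) (hx : NPC.Poly x) :
    NPC.Poly (fun b => e0 (n b) (A b) (x b)) := by
  unfold e0
  exact NPC.Poly.ite (NPC.Poly.decide_eq hx.snd.fst poly_c)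
    (poly_exd hn hA hx.fst (NPC.Poly.const 0) hx.snd.snd.fst hx.snd.snd.snd)
    (NPC.Poly.ite (NPC.Poly.decide_eq hx.snd.fst (poly_12 hn 23))
      (poly_exd hn hA hx.fst (NPC.Poly.const 1) hx.snd.snd.fst hx.snd.snd.snd)
      (NPC.Poly.ite (NPC.Poly.decide_eq (NPC.Poly.mod hx.snd.fst poly_c) poly_c)
        (poly_mk4 hx.fst (NPC.Poly.sub hx.snd.fst poly_c) hx.snd.snd.fst hx.snd.snd.snd)
        (poly_mk4 hx.fst (NPC.Poly.add hx.snd.fst poly_c) hx.snd.snd.fst hx.snd.snd.snd)))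

theorem poly_e1 (hx : NPC.Poly x) : NPC.Poly (fun b => e1 (x b)) := by
  unfold e1
  exact NPC.Poly.ite (NPC.Poly.decide_eq (NPC.Poly.mod hx.snd.fst poly_c) poly_c)
    (poly_mk4 hx.fst (NPC.Poly.add hx.snd.fst poly_c) hx.snd.snd.fst hx.snd.snd.snd)
    (poly_mk4 hx.fst (NPC.Poly.sub hx.snd.fst poly_c) hx.snd.snd.fst hx.snd.snd.snd)

theorem poly_e2 (hx : NPC.Poly x) : NPC.Poly (fun b => e2 (x b)) := by
  unfold e2
  exact NPC.Poly.ite (NPC.Poly.decide_lt (NPC.Poly.mod hx.snd.fst poly_c) poly_c)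
    (poly_mk4 hx.fst (NPC.Poly.add hx.snd.fst poly_c) hx.snd.snd.fst hx.snd.snd.snd)
    (poly_mk4 hx.fst (NPC.Poly.sub hx.snd.fst poly_c) hx.snd.snd.fst hx.snd.snd.snd)

theorem poly_m0 (hn : NPC.Poly n) (hA : NPC.Poly A) (hx : NPC.Poly x) :
    NPC.Poly (fun b => m0 (n b) (A b) (x b)) := by
  unfold m0
  exact NPC.Poly.ite (NPC.Poly.decide_eq hx.fst poly_c)
    (NPC.Poly.ite (NPC.Poly.decide_eq hx.snd.snd.snd poly_c)
      (poly_mk4 poly_c (poly_jd hn hx.snd.fst) hx.snd.snd.fst hx.snd.snd.snd)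
      (poly_mk4 poly_c hx.snd.fst hx.snd.snd.fst (NPC.Poly.sub hx.snd.snd.snd poly_c)))
    (NPC.Poly.ite (NPC.Poly.decide_eq hx.fst poly_c)
      (poly_mk4 poly_c hx.snd.fst hx.snd.snd.fst (NPC.Poly.add hx.snd.snd.snd poly_c))
      (NPC.Poly.ite (NPC.Poly.decide_eq hx.fst poly_c) (poly_e0 hn hA hx) (poly_e1 hx)))

theorem poly_m1 (hn : NPC.Poly n) (hA : NPC.Poly A) (hx : NPC.Poly x) :
    NPC.Poly (fun b => m1 (n b) (A b) (x b)) := by
  unfold m1
  exact NPC.Poly.ite (NPC.Poly.decide_eq hx.fst poly_c)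
    (NPC.Poly.ite (NPC.Poly.decide_lt (NPC.Poly.add hx.snd.snd.snd poly_c) hn)
      (poly_mk4 poly_c hx.snd.fst hx.snd.snd.fst hx.snd.snd.snd)
      (poly_mk4 poly_c (poly_jd hn hx.snd.fst) hx.snd.snd.fst hx.snd.snd.snd))
    (NPC.Poly.ite (NPC.Poly.decide_eq hx.fst poly_c)
      (poly_mk4 poly_c hx.snd.fst hx.snd.snd.fst hx.snd.snd.snd)
      (NPC.Poly.ite (NPC.Poly.decide_eq hx.fst poly_c) (poly_e1 hx)
        (NPC.Poly.ite (NPC.Poly.decide_eq hx.fst poly_c) (poly_e0 hn hA hx) (poly_e2 hx))))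

theorem poly_m2 (hn : NPC.Poly n) (hA : NPC.Poly A) (hx : NPC.Poly x) :
    NPC.Poly (fun b => m2 (n b) (A b) (x b)) := by
  unfold m2
  exact NPC.Poly.ite (NPC.Poly.decide_eq hx.fst poly_c)
    (NPC.Poly.ite (NPC.Poly.decide_bool (poly_ent hA hx.snd.snd.fst hx.snd.snd.snd))
      (poly_mk4 poly_c hx.snd.fst hx.snd.snd.snd hx.snd.snd.fst)
      (poly_mk4 poly_c (poly_jd hn hx.snd.fst) hx.snd.snd.fst hx.snd.snd.snd))
    (NPC.Poly.ite (NPC.Poly.decide_eq hx.fst poly_c)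
      (poly_mk4 poly_c (poly_jd hn hx.snd.fst) hx.snd.snd.fst hx.snd.snd.snd)
      (NPC.Poly.ite (NPC.Poly.decide_eq hx.fst poly_c) (poly_e2 hx)
        (NPC.Poly.ite (NPC.Poly.decide_eq hx.fst poly_c) (poly_e2 hx) (poly_e0 hn hA hx))))

theorem poly_adk (hn : NPC.Poly n) (hA : NPC.Poly A) (hx : NPC.Poly x) (hy : NPC.Poly y) :
    NPC.Poly (fun b => decide (adk (n b) (A b) (x b) (y b))) := by
  unfold adk
  exact NPC.Poly.decide_or (NPC.Poly.decide_eq hy (poly_m0 hn hA hx))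
    (NPC.Poly.decide_or (NPC.Poly.decide_eq hy (poly_m1 hn hA hx))
      (NPC.Poly.decide_eq hy (poly_m2 hn hA hx)))

theorem poly_rek (hn : NPC.Poly n) (hR : NPC.Poly R) (hx : NPC.Poly x) (hy : NPC.Poly y) :
    NPC.Poly (fun b => decide (rek (n b) (R b) (x b) (y b))) := by
  unfold rek
  refine NPC.Poly.decide_or (NPC.Poly.decide_and (NPC.Poly.decide_eq hx.fst poly_c)
    (NPC.Poly.decide_and (NPC.Poly.decide_eq hx.snd.fst poly_c)
      (NPC.Poly.decide_and (NPC.Poly.decide_eq hy (poly_mk4 poly_c poly_c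
        hx.snd.snd.snd hx.snd.snd.fst))
        (NPC.Poly.decide_eq (poly_ent hR hx.snd.snd.fst hx.snd.snd.snd)
          (NPC.Poly.const true))))) (NPC.Poly.decide_or ?_ ?_)
  · exact NPC.Poly.decide_and (NPC.Poly.decide_lt poly_c hx.fst) (NPC.Poly.decide_and
      (NPC.Poly.decide_eq (NPC.Poly.mod hx.snd.fst poly_c) poly_c) (NPC.Poly.decide_and
      (NPC.Poly.decide_lt hx.snd.fst (poly_12 hn 23)) (NPC.Poly.decide_eq hy
        (poly_mk4 hx.fst (NPC.Poly.add hx.snd.fst poly_c) hx.snd.snd.fst hx.snd.snd.snd))))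
  · exact NPC.Poly.decide_and (NPC.Poly.decide_lt poly_c hx.fst) (NPC.Poly.decide_and
      (NPC.Poly.decide_eq (NPC.Poly.mod hx.snd.fst poly_c) poly_c) (NPC.Poly.decide_and
      (NPC.Poly.decide_lt poly_c hx.snd.fst) (NPC.Poly.decide_eq hy
        (poly_mk4 hx.fst (NPC.Poly.sub hx.snd.fst poly_c) hx.snd.snd.fst hx.snd.snd.snd))))

end

theorem upoly_L : UPoly (fun z : Inst => 12 * z.1.length + 24) :=
  UPoly.add (UPoly.mul (UPoly.const 12) upoly_n) (UPoly.const 24)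

theorem poly_lak : NPC.Poly (fun z : Inst => lak z.1.length) := by
  unfold lak
  exact NPC.Poly.append (poly_cube 0 (UPoly.const 2) upoly_n upoly_n)
    (NPC.Poly.append (poly_cube 1 (UPoly.const 2) upoly_n upoly_n1)
    (NPC.Poly.append (poly_cube 2 upoly_L upoly_n upoly_n)
    (NPC.Poly.append (poly_cube 3 upoly_L upoly_n upoly_n)
    (NPC.Poly.append (poly_cube 4 upoly_L upoly_n upoly_n)
    (poly_cube 5 upoly_L upoly_n upoly_n1)))))

theorem poly_kt : NPC.Poly (fun z : Inst => kt z) := by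
  unfold kt
  have h1 : NPC.Poly (fun z : Inst => z.1.length + 1) :=
    NPC.Poly.add upoly_n.toPoly (NPC.Poly.const 1)
  have h2 : NPC.Poly (fun z : Inst => z.2.2) := NPC.Poly.snd (NPC.Poly.snd NPC.Poly.id)
  exact NPC.Poly.ite (NPC.Poly.decide_lt h2 h1) h2 h1

theorem poly_instk : NPC.Poly (fun z : Inst => instk z) := by
  unfold instk
  refine NPC.Poly.pair (NPC.Poly.map (F := fun (z : Inst) x => (lak z.1.length).map
    (fun y => decide (adk z.1.length z.1 x y))) poly_lak ?_) (NPC.Poly.pair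
      (NPC.Poly.map (F := fun (z : Inst) x => (lak z.1.length).map
    (fun y => decide (rek z.1.length z.2.1 x y))) poly_lak ?_) poly_kt)
  · refine NPC.Poly.map (F := fun (p : Inst × E) y => decide (adk p.1.1.length p.1.1 p.2 y))
      (poly_lak.comp (NPC.Poly.fst NPC.Poly.id)) ?_
    exact poly_adk (upoly_n.toPoly.comp (NPC.Poly.fst (NPC.Poly.fst NPC.Poly.id)))
      (NPC.Poly.fst (NPC.Poly.fst (NPC.Poly.fst NPC.Poly.id)))
      (NPC.Poly.snd (NPC.Poly.fst NPC.Poly.id)) (NPC.Poly.snd NPC.Poly.id)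
  · refine NPC.Poly.map (F := fun (p : Inst × E) y => decide (rek p.1.1.length p.1.2.1 p.2 y))
      (poly_lak.comp (NPC.Poly.fst NPC.Poly.id)) ?_
    exact poly_rek (upoly_n.toPoly.comp (NPC.Poly.fst (NPC.Poly.fst NPC.Poly.id)))
      (NPC.Poly.fst (NPC.Poly.snd (NPC.Poly.fst (NPC.Poly.fst NPC.Poly.id))))
      (NPC.Poly.snd (NPC.Poly.fst NPC.Poly.id)) (NPC.Poly.snd NPC.Poly.id)

theorem exists_redk : ∃ F : List Bool → List Bool, PolyTime F ∧
    ∀ I : Inst, F (bits I) = bits (instk I) := by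
  refine ⟨fun x => bits (match unbits Inst x with
    | none => (([], [], 0) : Inst)
    | some p => instk p), ?_, fun p => by simp only [unbits_bits]⟩
  refine polyTime_bits ((NPC.Poly.optCases (o := fun x => unbits Inst x)
    (g := fun _ => (([], [], 0) : Inst)) (h := fun _ p => instk p) poly_unbits (NPC.Poly.const _)
    (poly_instk.comp (NPC.Poly.snd NPC.Poly.id))).congr fun x => ?_)
  cases unbits Inst x <;> rfl

theorem kt_le (I : Inst) : kt I ≤ I.2.2 := by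
  unfold kt
  split_ifs with h
  · exact le_rfl
  · exact not_lt.1 h

theorem reductionk : ∃ F : List Bool → List Bool, PolyTime F ∧
    ∀ I : Inst, WF I → ∃ J : Inst, F (bits I) = bits J ∧ WF J ∧ Cubic J ∧ Coloured3 J ∧
      RedDisjoint J ∧ (Bip I → Bip J) ∧ J.2.2 ≤ I.2.2 ∧ (Yes J ↔ Yes I) := by
  obtain ⟨F, hF, hF'⟩ := exists_redk
  exact ⟨F, hF, fun I hI => ⟨instk I, hF' I, wf_instk hI, cubic hI, coloured hI, red_disjoint,
    bip hI, kt_le I, yes_iff⟩⟩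

theorem transfer {C C' : Inst → Prop}
    (h : ∀ I J : Inst, C' I → WF J → Cubic J → Coloured3 J → RedDisjoint J → (Bip I → Bip J) →
      C J) (hC : HasAlg C) : HasAlg C' := by
  obtain ⟨D, hD, hd⟩ := hC
  obtain ⟨F, hF, hF'⟩ := reductionk
  refine ⟨fun x => D (F x), H642R2.TMSim.polyTime_comp hD hF, fun I hI hI' => ?_⟩
  obtain ⟨J, h1, h2, h3, h4, h5, h6, _, h7⟩ := hF' I hI
  show D (F (bits I)) = [true] ↔ Yes I
  rw [h1, hd J h2 (h I J hI' h2 h3 h4 h5 h6)]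
  exact h7

theorem restrict {C C' : Inst → Prop} (h : ∀ I : Inst, C' I → C I) (hC : HasAlg C) :
    HasAlg C' := by
  obtain ⟨D, hD, hd⟩ := hC
  exact ⟨D, hD, fun I hI hI' => hd I hI (h I hI')⟩

end Pool.Agent.H801.Em2
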